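import Mathlib

/-!
Gluing of local splittings of a finite pairing along the neighbours of a symbol (part C of the
notes 2448, 2456): abstract version.
-/

set_option linter.unusedSectionVars false

namespace PGELC

variable {X Y Q : Type} [AddCommGroup X] [Module (ZMod 2) X] [AddCommGroup Y] [Module (ZMod 2) Y]

theorem add_self' {M : Type} [AddCommGroup M] [Module (ZMod 2) M] (x : M) : x + x = 0 := by
  have h : (2 : ZMod 2) • x = 0 := by
    have : (2 : ZMod 2) = 0 := by decide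
    rw [this, zero_smul]
  rwa [two_smul] at h

theorem add_add_cancel {M : Type} [AddCommGroup M] [Module (ZMod 2) M] (x y : M) :
    x + (x + y) = y := by rw [← add_assoc, add_self', zero_add]

/-- a set valued pairing, linear in both variables in the weak sense -/
structure Pr (X Y Q : Type) [AddCommGroup X] [Module (ZMod 2) X] [AddCommGroup Y]
    [Module (ZMod 2) Y] where
  q : X → Y → Q
  z : Q
  hx : ∀ x x' y, q x y = q x' y ↔ q (x + x') y = z
  hy : ∀ x y y', q x y = q x y' ↔ q x (y + y') = z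

namespace Pr

variable (G : Pr X Y Q)

theorem zl (y : Y) : G.q 0 y = G.z := by
  have := (G.hx 0 0 y).1 rfl
  rwa [add_zero] at this

theorem zr (x : X) : G.q x 0 = G.z := by
  have := (G.hy x 0 0).1 rfl
  rwa [add_zero] at this

variable {G} in
theorem addl {x x' : X} {y : Y} (h : G.q x y = G.z) : G.q (x + x') y = G.q x' y := by
  rw [G.hx, add_assoc, add_self', add_zero]
  exact h

variable {G} in
theorem addl' {x x' : X} {y : Y} (h : G.q x' y = G.z) : G.q (x + x') y = G.q x y := by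
  rw [add_comm]; exact addl h

variable {G} in
theorem addr {x : X} {y y' : Y} (h : G.q x y = G.z) : G.q x (y + y') = G.q x y' := by
  rw [G.hy, add_assoc, add_self', add_zero]
  exact h

variable {G} in
theorem addr' {x : X} {y y' : Y} (h : G.q x y' = G.z) : G.q x (y + y') = G.q x y := by
  rw [add_comm]; exact addr h

/-- the subspace of all `x` with `q x y = z` for all `y` in `W` -/
def px (W : Set Y) : Submodule (ZMod 2) X where
  carrier := {x | ∀ y ∈ W, G.q x y = G.z}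
  zero_mem' := fun y _ => G.zl y
  add_mem' := fun {a b} ha hb y hy => by rw [addl (ha y hy)]; exact hb y hy
  smul_mem' := fun r x hx y hy => by
    rcases (show r = 0 ∨ r = 1 by revert r; decide) with h | h
    · rw [h, zero_smul]; exact G.zl y
    · rw [h, one_smul]; exact hx y hy

/-- the subspace of all `y` with `q x y = z` for all `x` in `U` -/
def py (U : Set X) : Submodule (ZMod 2) Y where
  carrier := {y | ∀ x ∈ U, G.q x y = G.z}
  zero_mem' := fun x _ => G.zr x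
  add_mem' := fun {a b} ha hb x hx => by rw [addr (ha x hx)]; exact hb x hx
  smul_mem' := fun r y hy x hx => by
    rcases (show r = 0 ∨ r = 1 by revert r; decide) with h | h
    · rw [h, zero_smul]; exact G.zr x
    · rw [h, one_smul]; exact hy x hx

variable {G} in
theorem mem_px {W : Set Y} {x : X} : x ∈ G.px W ↔ ∀ y ∈ W, G.q x y = G.z := Iff.rfl

variable {G} in
theorem mem_py {U : Set X} {y : Y} : y ∈ G.py U ↔ ∀ x ∈ U, G.q x y = G.z := Iff.rfl

/-- the partner in `X` of the piece `W` at the edge with end `y` -/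
def ux (y : Y) (W : Submodule (ZMod 2) Y) : Submodule (ZMod 2) X := G.px {y} ⊓ G.px (W : Set Y)

/-- the partner in `Y` of the piece `U` at the edge with end `x` -/
def wy (x : X) (U : Submodule (ZMod 2) X) : Submodule (ZMod 2) Y := G.py {x} ⊓ G.py (U : Set X)

variable {G} in
theorem mem_ux {y : Y} {W : Submodule (ZMod 2) Y} {u : X} :
    u ∈ G.ux y W ↔ G.q u y = G.z ∧ ∀ w ∈ W, G.q u w = G.z := by
  unfold ux
  rw [Submodule.mem_inf, mem_px, mem_px]
  simp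

variable {G} in
theorem mem_wy {x : X} {U : Submodule (ZMod 2) X} {w : Y} :
    w ∈ G.wy x U ↔ G.q x w = G.z ∧ ∀ u ∈ U, G.q u w = G.z := by
  unfold wy
  rw [Submodule.mem_inf, mem_py, mem_py]
  simp

end Pr

/-- a system of local splittings, `W1, W2` at the left slots and `U1, U2` at the right slots of
the symbol `c` -/
structure Sys (G : Pr X Y Q) (c : Q) where
  lx : ∀ x x' y y', G.q x y = c → G.q x' y' = c → ∃ t, G.q x t = c ∧ G.q x' t = c
  ly : ∀ x x' y y', G.q x y = c → G.q x' y' = c → ∃ s, G.q s y = c ∧ G.q s y' = c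
  gx : X → Submodule (ZMod 2) Y → Submodule (ZMod 2) Y → Prop
  gy : Y → Submodule (ZMod 2) X → Submodule (ZMod 2) X → Prop
  tx : ∀ {x y W1 W2}, G.q x y = c → gx x W1 W2 → gy y (G.ux y W2) (G.ux y W1)
  ty : ∀ {x y U1 U2}, G.q x y = c → gy y U1 U2 → gx x (G.wy x U2) (G.wy x U1)
  ix1 : ∀ {x y W1 W2}, G.q x y = c → gx x W1 W2 → G.wy x (G.ux y W1) = W1
  ix2 : ∀ {x y W1 W2}, G.q x y = c → gx x W1 W2 → G.wy x (G.ux y W2) = W2
  iy1 : ∀ {x y U1 U2}, G.q x y = c → gy y U1 U2 → G.ux y (G.wy x U1) = U1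
  iy2 : ∀ {x y U1 U2}, G.q x y = c → gy y U1 U2 → G.ux y (G.wy x U2) = U2
  sx : ∀ {x W1 W2}, gx x W1 W2 → W1 ⊔ W2 = G.py {x}
  sy : ∀ {y U1 U2}, gy y U1 U2 → U1 ⊔ U2 = G.px {y}
  str : ∀ {x y W1 W2}, G.q x y = c → gx x W1 W2 → ∀ u1 ∈ G.ux y W2, ∀ u2 ∈ G.ux y W1,
    ∀ w1 ∈ W1, ∀ w2 ∈ W2, G.q u1 w1 = G.q u2 w2 → G.q u1 w1 = G.z
  un1 : ∀ {x W1 W1' W2}, gx x W1 W2 → gx x W1' W2 → W1 = W1'
  un2 : ∀ {x W1 W2 W2'}, gx x W1 W2 → gx x W1 W2' → W2 = W2'

namespace Sys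

variable {G : Pr X Y Q} {c : Q} (A : Sys G c)

/-- transport of a piece from the one to the other end of a path of length two -/
def f (G : Pr X Y Q) (y : Y) (x : X) (W : Submodule (ZMod 2) Y) : Submodule (ZMod 2) Y :=
  G.wy x (G.ux y W)

variable {A}

theorem sub_z {x x' : X} {y : Y} (h : G.q x y = c) (h' : G.q x' y = c) :
    G.q (x + x') y = G.z := (G.hx _ _ _).1 (h.trans h'.symm)

theorem sub_z' {x : X} {y y' : Y} (h : G.q x y = c) (h' : G.q x y' = c) :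
    G.q x (y + y') = G.z := (G.hy _ _ _).1 (h.trans h'.symm)

/-- transport gives good splittings -/
theorem f_good {x x' : X} {y : Y} {W1 W2 : Submodule (ZMod 2) Y} (h : G.q x y = c)
    (h' : G.q x' y = c) (g : A.gx x W1 W2) : A.gx x' (f G y x' W1) (f G y x' W2) :=
  A.ty h' (A.tx h g)

theorem f_comp1 {x x' x'' : X} {y : Y} {W1 W2 : Submodule (ZMod 2) Y} (h : G.q x y = c)
    (h' : G.q x' y = c) (g : A.gx x W1 W2) :
    f G y x'' (f G y x' W1) = f G y x'' W1 := by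
  unfold f
  rw [A.iy2 h' (A.tx h g)]

theorem f_comp2 {x x' x'' : X} {y : Y} {W1 W2 : Submodule (ZMod 2) Y} (h : G.q x y = c)
    (h' : G.q x' y = c) (g : A.gx x W1 W2) :
    f G y x'' (f G y x' W2) = f G y x'' W2 := by
  unfold f
  rw [A.iy1 h' (A.tx h g)]

/-- Lemma A -/
theorem keep2 {x x' : X} {y : Y} {W1 W2 : Submodule (ZMod 2) Y} (h : G.q x y = c)
    (h' : G.q x' y = c) (g : A.gx x W1 W2) (hv : ∀ w ∈ W2, G.q (x + x') w = G.z) :
    f G y x' W2 = W2 := by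
  have e := A.ix2 h g
  have hv' : x + x' ∈ G.ux y W2 := Pr.mem_ux.2 ⟨sub_z h h', hv⟩
  unfold f
  refine Eq.trans ?_ e
  ext w
  rw [Pr.mem_wy, Pr.mem_wy]
  constructor
  · rintro ⟨h1, h2⟩
    refine ⟨?_, h2⟩
    rw [← h1, G.hx]
    exact h2 _ hv'
  · rintro ⟨h1, h2⟩
    refine ⟨?_, h2⟩
    rw [← h1, G.hx, add_comm]
    exact h2 _ hv'

theorem keep1 {x x' : X} {y : Y} {W1 W2 : Submodule (ZMod 2) Y} (h : G.q x y = c)
    (h' : G.q x' y = c) (g : A.gx x W1 W2) (hv : ∀ w ∈ W1, G.q (x + x') w = G.z) :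
    f G y x' W1 = W1 := by
  have e := A.ix1 h g
  have hv' : x + x' ∈ G.ux y W1 := Pr.mem_ux.2 ⟨sub_z h h', hv⟩
  unfold f
  refine Eq.trans ?_ e
  ext w
  rw [Pr.mem_wy, Pr.mem_wy]
  constructor
  · rintro ⟨h1, h2⟩
    refine ⟨?_, h2⟩
    rw [← h1, G.hx]
    exact h2 _ hv'
  · rintro ⟨h1, h2⟩
    refine ⟨?_, h2⟩
    rw [← h1, G.hx, add_comm]
    exact h2 _ hv'

/-- the two pieces transport in the same way along two paths -/
def Same (G : Pr X Y Q) (y y' : Y) (x' : X) (W1 W2 : Submodule (ZMod 2) Y) : Prop :=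
  f G y x' W1 = f G y' x' W1 ∧ f G y x' W2 = f G y' x' W2

/-- Lemma B -/
theorem indep2 {x x' : X} {y y' : Y} {W1 W2 : Submodule (ZMod 2) Y} (h : G.q x y = c)
    (h' : G.q x' y = c) (k : G.q x y' = c) (k' : G.q x' y' = c) (g : A.gx x W1 W2)
    (hv : ∀ w ∈ W2, G.q (x + x') w = G.z) : Same G y y' x' W1 W2 := by
  have e1 := keep2 h h' g hv
  have e2 := keep2 k k' g hv
  have g1 := f_good h h' g
  have g2 := f_good k k' g
  rw [e1] at g1
  rw [e2] at g2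
  exact ⟨A.un1 g1 g2, e1.trans e2.symm⟩

theorem indep1 {x x' : X} {y y' : Y} {W1 W2 : Submodule (ZMod 2) Y} (h : G.q x y = c)
    (h' : G.q x' y = c) (k : G.q x y' = c) (k' : G.q x' y' = c) (g : A.gx x W1 W2)
    (hv : ∀ w ∈ W1, G.q (x + x') w = G.z) : Same G y y' x' W1 W2 := by
  have e1 := keep1 h h' g hv
  have e2 := keep1 k k' g hv
  have g1 := f_good h h' g
  have g2 := f_good k k' g
  rw [e1] at g1
  rw [e2] at g2
  exact ⟨e1.trans e2.symm, A.un2 g1 g2⟩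

theorem split_x {y : Y} {x : X} {W1 W2 : Submodule (ZMod 2) Y} (h : G.q x y = c)
    (g : A.gx x W1 W2) {v : X} (hv : G.q v y = G.z) :
    ∃ v1 ∈ G.ux y W2, ∃ v2 ∈ G.ux y W1, v1 + v2 = v := by
  have := A.sy (A.tx h g)
  have hv' : v ∈ G.px {y} := by rw [Pr.mem_px]; simpa using hv
  rw [← this, Submodule.mem_sup] at hv'
  exact hv'

theorem split_y {x : X} {W1 W2 : Submodule (ZMod 2) Y}
    (g : A.gx x W1 W2) {w : Y} (hw : G.q x w = G.z) :
    ∃ w1 ∈ W1, ∃ w2 ∈ W2, w1 + w2 = w := by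
  have := A.sx g
  have hw' : w ∈ G.py {x} := by rw [Pr.mem_py]; simpa using hw
  rw [← this, Submodule.mem_sup] at hw'
  exact hw'

theorem w1_le {x : X} {W1 W2 : Submodule (ZMod 2) Y} (g : A.gx x W1 W2) {w : Y} (hw : w ∈ W1) :
    G.q x w = G.z := by
  have : w ∈ G.py {x} := by rw [← A.sx g]; exact Submodule.mem_sup_left hw
  rw [Pr.mem_py] at this
  exact this x rfl

theorem w2_le {x : X} {W1 W2 : Submodule (ZMod 2) Y} (g : A.gx x W1 W2) {w : Y} (hw : w ∈ W2) :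
    G.q x w = G.z := by
  have : w ∈ G.py {x} := by rw [← A.sx g]; exact Submodule.mem_sup_right hw
  rw [Pr.mem_py] at this
  exact this x rfl

/-- in a transported splitting the second piece of `X` is orthogonal to the first piece -/
theorem perp1 {x' : X} {y : Y} {W1 : Submodule (ZMod 2) Y} {v : X} (hv : v ∈ G.ux y W1) :
    ∀ w ∈ f G y x' W1, G.q v w = G.z := by
  intro w hw
  exact (Pr.mem_wy.1 hw).2 v hv

/-- a point which has a neighbour `y` -/
theorem slot_add {x v : X} {y : Y} (h : G.q x y = c) (hv : G.q v y = G.z) :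
    G.q (x + v) y = c := by rw [Pr.addl' hv, h]

/-- the main computation of Lemma C -/
theorem square {x x' : X} {y y' : Y} {W1 W2 : Submodule (ZMod 2) Y} (h : G.q x y = c)
    (k : G.q x y' = c) (k' : G.q x' y' = c) (g : A.gx x W1 W2) {v1 v2 : X}
    (hv1 : v1 ∈ G.ux y W2) (hv2 : v2 ∈ G.ux y W1) (hv : v1 + v2 = x + x') :
    G.q v1 y' = G.z := by
  obtain ⟨w1, hw1, w2, hw2, hw⟩ := split_y g (sub_z' h k)
  rw [Pr.mem_ux] at hv1 hv2
  have hy' : y' = y + (w1 + w2) := by rw [hw, add_add_cancel]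
  have h12 : G.q (v1 + v2) (w1 + w2) = G.z := by
    have e1 : G.q (v1 + v2) y' = G.z := by rw [hv]; exact sub_z k k'
    have e2 : G.q (v1 + v2) y = G.z := by rw [Pr.addl hv1.1, hv2.1]
    rw [hy', Pr.addr e2] at e1
    exact e1
  have e3 : G.q v1 (w1 + w2) = G.q v2 (w1 + w2) := (G.hx _ _ _).2 h12
  rw [Pr.addr' (hv1.2 w2 hw2), Pr.addr (hv2.2 w1 hw1)] at e3
  have e4 := A.str h g v1 (Pr.mem_ux.2 hv1) v2 (Pr.mem_ux.2 hv2) w1 hw1 w2 hw2 e3
  rw [hy', Pr.addr hv1.1, Pr.addr' (hv1.2 w2 hw2), e4]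

/-- Lemma C: transport does not depend on the path of length two -/
theorem indep {x x' : X} {y y' : Y} {W1 W2 : Submodule (ZMod 2) Y} (h : G.q x y = c)
    (h' : G.q x' y = c) (k : G.q x y' = c) (k' : G.q x' y' = c) (g : A.gx x W1 W2) :
    Same G y y' x' W1 W2 := by
  obtain ⟨v1, hv1, v2, hv2, hv⟩ := split_x h g (sub_z h h')
  have hq := square h k k' g hv1 hv2 hv
  have h1 : G.q (x + v1) y = c := slot_add h (Pr.mem_ux.1 hv1).1
  have k1 : G.q (x + v1) y' = c := slot_add k hq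
  have s1 : Same G y y' (x + v1) W1 W2 :=
    indep2 h h1 k k1 g (by rw [add_add_cancel]; exact (Pr.mem_ux.1 hv1).2)
  have g1 := f_good h h1 g
  have hx' : x + v1 + x' = v2 := by
    rw [add_right_comm, ← hv, add_right_comm, add_self', zero_add]
  have s2 : Same G y y' x' (f G y (x + v1) W1) (f G y (x + v1) W2) :=
    indep1 h1 h' k1 k' g1 (by rw [hx']; exact perp1 hv2)
  constructor
  · rw [← f_comp1 (x'' := x') h h1 g, s2.1, s1.1, f_comp1 k k1 g]
  · rw [← f_comp2 (x'' := x') h h1 g, s2.2, s1.2, f_comp2 k k1 g]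

/-- Lemma E -/
theorem common {x : X} {y y' : Y} {W1 W2 : Submodule (ZMod 2) Y} (h : G.q x y = c)
    (k : G.q x y' = c) (g : A.gx x W1 W2) {v1 v2 : X}
    (hv1 : v1 ∈ G.ux y W2) (hv2 : v2 ∈ G.ux y' W1) :
    ∃ t, G.q x t = c ∧ G.q v1 t = G.z ∧ G.q v2 t = G.z := by
  obtain ⟨w1, hw1, w2, hw2, hw⟩ := split_y g (sub_z' h k)
  rw [Pr.mem_ux] at hv1 hv2
  refine ⟨y + w2, ?_, ?_, ?_⟩
  · rw [Pr.addr' (w2_le g hw2), h]
  · rw [Pr.addr hv1.1, hv1.2 w2 hw2]
  · have : y + w2 = y' + w1 := by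
      have e : y' = y + (w1 + w2) := by rw [hw, add_add_cancel]
      rw [e, add_assoc, add_right_comm, add_self', zero_add]
    rw [this, Pr.addr hv2.1, hv2.2 w1 hw1]

open Classical in
/-- transport of a piece -/
noncomputable def T (G : Pr X Y Q) (c : Q) (x x' : X) (W : Submodule (ZMod 2) Y) :
    Submodule (ZMod 2) Y :=
  if h : ∃ t, G.q x t = c ∧ G.q x' t = c then f G h.choose x' W else W

theorem T_eq {x x' : X} {y : Y} {W1 W2 : Submodule (ZMod 2) Y} (h : G.q x y = c)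
    (h' : G.q x' y = c) (g : A.gx x W1 W2) :
    T G c x x' W1 = f G y x' W1 ∧ T G c x x' W2 = f G y x' W2 := by
  have hh : ∃ t, G.q x t = c ∧ G.q x' t = c := ⟨y, h, h'⟩
  have e := indep hh.choose_spec.1 hh.choose_spec.2 h h' g
  constructor
  · unfold T; rw [dif_pos hh]; exact e.1
  · unfold T; rw [dif_pos hh]; exact e.2

theorem T_good {x x' : X} {W1 W2 : Submodule (ZMod 2) Y} (h : ∃ y, G.q x y = c)
    (h' : ∃ y, G.q x' y = c) (g : A.gx x W1 W2) :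
    A.gx x' (T G c x x' W1) (T G c x x' W2) := by
  obtain ⟨y, hy⟩ := h
  obtain ⟨y', hy'⟩ := h'
  obtain ⟨t, h1, h2⟩ := A.lx _ _ _ _ hy hy'
  rw [(T_eq h1 h2 g).1, (T_eq h1 h2 g).2]
  exact f_good h1 h2 g

theorem T_keep2 {x x' : X} {W1 W2 : Submodule (ZMod 2) Y} (h : ∃ y, G.q x y = c)
    (h' : ∃ y, G.q x' y = c) (g : A.gx x W1 W2) (hv : ∀ w ∈ W2, G.q (x + x') w = G.z) :
    T G c x x' W2 = W2 := by
  obtain ⟨y, hy⟩ := h
  obtain ⟨y', hy'⟩ := h'
  obtain ⟨t, h1, h2⟩ := A.lx _ _ _ _ hy hy'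
  rw [(T_eq h1 h2 g).2, keep2 h1 h2 g hv]

theorem T_keep1 {x x' : X} {W1 W2 : Submodule (ZMod 2) Y} (h : ∃ y, G.q x y = c)
    (h' : ∃ y, G.q x' y = c) (g : A.gx x W1 W2) (hv : ∀ w ∈ W1, G.q (x + x') w = G.z) :
    T G c x x' W1 = W1 := by
  obtain ⟨y, hy⟩ := h
  obtain ⟨y', hy'⟩ := h'
  obtain ⟨t, h1, h2⟩ := A.lx _ _ _ _ hy hy'
  rw [(T_eq h1 h2 g).1, keep1 h1 h2 g hv]

/-- the transports are consistent on a triangle -/
def Cons (G : Pr X Y Q) (c : Q) (x x' x'' : X) (W1 W2 : Submodule (ZMod 2) Y) : Prop :=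
  T G c x' x'' (T G c x x' W1) = T G c x x'' W1 ∧ T G c x' x'' (T G c x x' W2) = T G c x x'' W2

theorem cons_nb {x x' x'' : X} {y : Y} {W1 W2 : Submodule (ZMod 2) Y} (h : G.q x y = c)
    (h' : G.q x' y = c) (h'' : G.q x'' y = c) (g : A.gx x W1 W2) : Cons G c x x' x'' W1 W2 := by
  have g' := f_good h h' g
  unfold Cons
  rw [(T_eq h h' g).1, (T_eq h h' g).2, (T_eq h h'' g).1, (T_eq h h'' g).2,
    (T_eq h' h'' g').1, (T_eq h' h'' g').2]
  exact ⟨f_comp1 h h' g, f_comp2 h h' g⟩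

theorem perp_third {x x' x'' : X} {W : Submodule (ZMod 2) Y}
    (hv : ∀ w ∈ W, G.q (x + x') w = G.z) (hv' : ∀ w ∈ W, G.q (x + x'') w = G.z) :
    ∀ w ∈ W, G.q (x' + x'') w = G.z := by
  intro w hw
  have e : x' + x'' = (x + x') + (x + x'') := by
    rw [add_add_add_comm, add_self', zero_add]
  rw [e, Pr.addl (hv w hw), hv' w hw]

theorem cons2 {x x' x'' : X} {W1 W2 : Submodule (ZMod 2) Y} (h : ∃ y, G.q x y = c)
    (h' : ∃ y, G.q x' y = c) (h'' : ∃ y, G.q x'' y = c) (g : A.gx x W1 W2)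
    (hv : ∀ w ∈ W2, G.q (x + x') w = G.z) (hv' : ∀ w ∈ W2, G.q (x + x'') w = G.z) :
    Cons G c x x' x'' W1 W2 := by
  have g' := T_good h h' g
  have g'' := T_good h' h'' g'
  have g3 := T_good h h'' g
  have e1 := T_keep2 h h' g hv
  have e2 := T_keep2 h h'' g hv'
  rw [e1] at g' g''
  have e3 := T_keep2 h' h'' g' (perp_third hv hv')
  rw [e3] at g''
  rw [e2] at g3
  unfold Cons
  rw [e1, e2, e3]
  exact ⟨A.un1 g'' g3, rfl⟩

theorem cons1 {x x' x'' : X} {W1 W2 : Submodule (ZMod 2) Y} (h : ∃ y, G.q x y = c)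
    (h' : ∃ y, G.q x' y = c) (h'' : ∃ y, G.q x'' y = c) (g : A.gx x W1 W2)
    (hv : ∀ w ∈ W1, G.q (x + x') w = G.z) (hv' : ∀ w ∈ W1, G.q (x + x'') w = G.z) :
    Cons G c x x' x'' W1 W2 := by
  have g' := T_good h h' g
  have g'' := T_good h' h'' g'
  have g3 := T_good h h'' g
  have e1 := T_keep1 h h' g hv
  have e2 := T_keep1 h h'' g hv'
  rw [e1] at g' g''
  have e3 := T_keep1 h' h'' g' (perp_third hv hv')
  rw [e3] at g''
  rw [e2] at g3
  unfold Cons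
  rw [e1, e2, e3]
  exact ⟨rfl, A.un2 g'' g3⟩

/-- three slots one of which is joined to the others by a vector of the first and a vector of the
second kind have a common neighbour -/
theorem common3 {x x' x'' : X} {W1 W2 : Submodule (ZMod 2) Y} (h : ∃ y, G.q x y = c)
    (h' : ∃ y, G.q x' y = c) (h'' : ∃ y, G.q x'' y = c) (g : A.gx x W1 W2)
    (hv : ∀ w ∈ W2, G.q (x + x') w = G.z) (hv' : ∀ w ∈ W1, G.q (x + x'') w = G.z) :
    ∃ t, G.q x t = c ∧ G.q x' t = c ∧ G.q x'' t = c := by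
  obtain ⟨y, hy⟩ := h
  obtain ⟨y', hy'⟩ := h'
  obtain ⟨y'', hy''⟩ := h''
  obtain ⟨t, h1, h2⟩ := A.lx _ _ _ _ hy hy'
  obtain ⟨t', h1', h2'⟩ := A.lx _ _ _ _ hy hy''
  obtain ⟨s, e1, e2, e3⟩ := common h1 h1' g (Pr.mem_ux.2 ⟨sub_z h1 h2, hv⟩)
    (Pr.mem_ux.2 ⟨sub_z h1' h2', hv'⟩)
  refine ⟨s, e1, ?_, ?_⟩
  · rw [← e1]; exact ((G.hx _ _ _).2 e2).symm
  · rw [← e1]; exact ((G.hx _ _ _).2 e3).symm

/-- the pieces of a difference of two slots -/
theorem pieces {x x' : X} {W1 W2 : Submodule (ZMod 2) Y} (h : ∃ y, G.q x y = c)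
    (h' : ∃ y, G.q x' y = c) (g : A.gx x W1 W2) :
    ∃ y v1 v2, G.q x y = c ∧ G.q x' y = c ∧ v1 ∈ G.ux y W2 ∧ v2 ∈ G.ux y W1 ∧
      x' = x + (v1 + v2) := by
  obtain ⟨y, hy⟩ := h
  obtain ⟨y', hy'⟩ := h'
  obtain ⟨t, h1, h2⟩ := A.lx _ _ _ _ hy hy'
  obtain ⟨v1, hv1, v2, hv2, hv⟩ := split_x h1 g (sub_z h1 h2)
  exact ⟨t, v1, v2, h1, h2, hv1, hv2, by rw [hv, add_add_cancel]⟩

/-- the transports are consistent on every triangle -/
theorem cons {x x' x'' : X} {W1 W2 : Submodule (ZMod 2) Y} (h : ∃ y, G.q x y = c)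
    (h' : ∃ y, G.q x' y = c) (h'' : ∃ y, G.q x'' y = c) (g : A.gx x W1 W2) :
    Cons G c x x' x'' W1 W2 := by
  obtain ⟨y, v1, v2, hxy, hx'y, hv1, hv2, ex'⟩ := pieces h h' g
  obtain ⟨y', u1, u2, hxy', hx''y', hu1, hu2, ex''⟩ := pieces h h'' g
  have mv1 := Pr.mem_ux.1 hv1
  have mv2 := Pr.mem_ux.1 hv2
  have mu1 := Pr.mem_ux.1 hu1
  have mu2 := Pr.mem_ux.1 hu2
  -- the intermediate points
  obtain ⟨a, ea⟩ : ∃ a, a = x + v1 := ⟨_, rfl⟩
  obtain ⟨a', ea'⟩ : ∃ a', a' = x + u1 := ⟨_, rfl⟩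
  obtain ⟨b, eb⟩ : ∃ b, b = x + v2 := ⟨_, rfl⟩
  obtain ⟨d, ed⟩ : ∃ d, d = x + (u1 + v2) := ⟨_, rfl⟩
  have hay : G.q a y = c := by rw [ea]; exact slot_add hxy mv1.1
  have hby : G.q b y = c := by rw [eb]; exact slot_add hxy mv2.1
  have ha'y' : G.q a' y' = c := by rw [ea']; exact slot_add hxy' mu1.1
  obtain ⟨t, ht, ht1, ht2⟩ := common hxy' hxy g hu1 hv2
  have ha't : G.q a' t = c := by rw [ea']; exact slot_add ht ht1
  have hbt : G.q b t = c := by rw [eb]; exact slot_add ht ht2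
  have hdt : G.q d t = c := by
    rw [ed]; exact slot_add ht (by rw [Pr.addl ht1, ht2])
  have sa : ∃ y, G.q a y = c := ⟨_, hay⟩
  have sa' : ∃ y, G.q a' y = c := ⟨_, ha'y'⟩
  have sb : ∃ y, G.q b y = c := ⟨_, hby⟩
  have sd : ∃ y, G.q d y = c := ⟨_, hdt⟩
  have ga := T_good h sa g
  have ga' := T_good h sa' g
  have gb := T_good h sb g
  have gx' := T_good h h' g
  -- kept pieces
  have xa : x + a = v1 := by rw [ea, add_add_cancel]
  have xa' : x + a' = u1 := by rw [ea', add_add_cancel]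
  have xb : x + b = v2 := by rw [eb, add_add_cancel]
  have aW2 : T G c x a W2 = W2 := T_keep2 h sa g (by rw [xa]; exact mv1.2)
  have a'W2 : T G c x a' W2 = W2 := T_keep2 h sa' g (by rw [xa']; exact mu1.2)
  have bW1 : T G c x b W1 = W1 := T_keep1 h sb g (by rw [xb]; exact mv2.2)
  -- orthogonality at `a`, `a'` and `b`
  have pa : ∀ w ∈ T G c x a W1, G.q v2 w = G.z := by
    rw [(T_eq hxy hay g).1]; exact perp1 hv2
  have pa' : ∀ w ∈ T G c x a' W1, G.q u2 w = G.z := by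
    rw [(T_eq hxy' ha'y' g).1]; exact perp1 hu2
  have pa'' : ∀ w ∈ T G c x a' W1, G.q v2 w = G.z := by
    rw [(T_eq ht ha't g).1]; exact perp1 (Pr.mem_ux.2 ⟨ht2, mv2.2⟩)
  have pb : ∀ w ∈ T G c x b W2, G.q v1 w = G.z := by
    rw [(T_eq hxy hby g).2]; exact perp1 hv1
  have pb' : ∀ w ∈ T G c x b W2, G.q u1 w = G.z := by
    rw [(T_eq ht hbt g).2]; exact perp1 (Pr.mem_ux.2 ⟨ht1, mu1.2⟩)
  -- (1), (2)
  have c1 : Cons G c x a x' W1 W2 := cons_nb hxy hay hx'y g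
  have c2 : Cons G c x a' x'' W1 W2 := cons_nb hxy' ha'y' hx''y' g
  -- differences
  have a_x' : a + x' = v2 := by
    rw [ea, ex', add_add_add_comm, add_self', zero_add, add_add_cancel]
  have a_a' : a + a' = v1 + u1 := by
    rw [ea, ea', add_add_add_comm, add_self', zero_add]
  have a'_d : a' + d = v2 := by
    rw [ea', ed, add_add_add_comm, add_self', zero_add, add_add_cancel]
  have a'_x'' : a' + x'' = u2 := by
    rw [ea', ex'', add_add_add_comm, add_self', zero_add, add_add_cancel]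
  have d_x' : d + x' = u1 + v1 := by
    rw [ed, ex', add_add_add_comm, add_self', zero_add, add_add_add_comm, add_self', add_zero]
  have d_x'' : d + x'' = v2 + u2 := by
    rw [ed, ex'', add_add_add_comm, add_self', zero_add, add_add_add_comm, add_self', zero_add]
  have b_d : b + d = u1 := by
    rw [eb, ed, add_add_add_comm, add_self', zero_add, add_comm u1 v2, add_add_cancel]
  -- (3) the square a, x', a', d
  have sq : ∃ t, G.q a t = c ∧ G.q a' t = c ∧ G.q x' t = c :=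
    common3 sa sa' h' ga (by
      rw [a_a', aW2]
      intro w hw
      rw [Pr.addl (mv1.2 w hw), mu1.2 w hw]) (by rw [a_x']; exact pa)
  obtain ⟨s, s1, s2, s3⟩ := sq
  have hds : G.q d s = c := by
    have e : d = a' + (a + x') := by rw [a_x', ← a'_d, add_add_cancel]
    rw [e]
    exact slot_add s2 (sub_z s1 s3)
  have c3 : Cons G c a x' d _ _ := cons_nb s1 s3 hds ga
  have c3' : Cons G c a a' d _ _ := cons_nb s1 s2 hds ga
  -- (4)
  have c4 : Cons G c x a a' W1 W2 := cons2 h sa sa' g (by rw [xa]; exact mv1.2)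
    (by rw [xa']; exact mu1.2)
  -- (6)
  have c6 : Cons G c a' d x'' _ _ := cons1 sa' sd h'' ga' (by rw [a'_d]; exact pa'')
    (by rw [a'_x'']; exact pa')
  -- (5) splitting at d
  have gd := T_good sa' sd ga'
  have dW1 : T G c a' d (T G c x a' W1) = T G c x a' W1 :=
    T_keep1 sa' sd ga' (by rw [a'_d]; exact pa'')
  have cd : Cons G c x a' d W1 W2 := cons_nb ht ha't hdt g
  have cd' : Cons G c x b d W1 W2 := cons_nb ht hbt hdt g
  have dW2 : T G c b d (T G c x b W2) = T G c x b W2 :=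
    T_keep2 sb sd gb (by rw [b_d]; exact pb')
  have sq5 : ∃ t, G.q d t = c ∧ G.q x' t = c ∧ G.q x'' t = c :=
    common3 sd h' h'' gd (by
      rw [d_x', cd.2, ← cd'.2, dW2]
      intro w hw
      rw [Pr.addl (pb' w hw), pb w hw]) (by
      rw [d_x'', dW1]
      intro w hw
      rw [Pr.addl (pa'' w hw), pa' w hw])
  obtain ⟨r, r1, r2, r3⟩ := sq5
  have c5 : Cons G c x' d x'' _ _ := cons_nb r2 r1 r3 gx'
  constructor
  · rw [← c5.1, ← c1.1, c3.1, ← c3'.1, c4.1, c6.1, c2.1]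
  · rw [← c5.2, ← c1.2, c3.2, ← c3'.2, c4.2, c6.2, c2.2]

/-- the symbol `c` is a product with left factor `x` -/
def LS (G : Pr X Y Q) (c : Q) (x : X) : Prop := ∃ y, G.q x y = c

/-- the symbol `c` is a product with right factor `y` -/
def RS (G : Pr X Y Q) (c : Q) (y : Y) : Prop := ∃ x, G.q x y = c

section glob

variable {x0 : X} {A1 A2 : Submodule (ZMod 2) Y} (h0 : LS G c x0) (g0 : A.gx x0 A1 A2)

include h0 g0

theorem glob_good {x : X} (h : LS G c x) : A.gx x (T G c x0 x A1) (T G c x0 x A2) :=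
  T_good h0 h g0

theorem glob_f {x x' : X} {y : Y} (h : G.q x y = c) (h' : G.q x' y = c) :
    f G y x' (T G c x0 x A1) = T G c x0 x' A1 ∧ f G y x' (T G c x0 x A2) = T G c x0 x' A2 := by
  have hc := cons h0 ⟨y, h⟩ ⟨y, h'⟩ g0
  have e := T_eq h h' (glob_good h0 g0 ⟨y, h⟩)
  exact ⟨by rw [← e.1, hc.1], by rw [← e.2, hc.2]⟩

/-- the global pieces on the right hand side -/
theorem glob_ux {x x' : X} {y : Y} (h : G.q x y = c) (h' : G.q x' y = c) :
    G.ux y (T G c x0 x A1) = G.ux y (T G c x0 x' A1) ∧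
      G.ux y (T G c x0 x A2) = G.ux y (T G c x0 x' A2) := by
  have e := glob_f h0 g0 h h'
  have g := A.tx h (glob_good h0 g0 ⟨y, h⟩)
  rw [← e.1, ← e.2]
  unfold f
  exact ⟨(A.iy2 h' g).symm, (A.iy1 h' g).symm⟩

/-- the first pieces in `X` are orthogonal to the second pieces in `Y` -/
theorem glob_perp12 {x x1 : X} {y : Y} (h : LS G c x) (h1 : G.q x1 y = c) {v : X}
    (hv : v ∈ G.ux y (T G c x0 x1 A2)) : ∀ w ∈ T G c x0 x A2, G.q v w = G.z := by
  have s1 : LS G c x1 := ⟨y, h1⟩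
  have g1 := glob_good h0 g0 s1
  obtain ⟨y', v1, v2, hy1, hy2, hv1, hv2, ex⟩ := pieces s1 h g1
  obtain ⟨t, ht, ht1, ht2⟩ := common h1 hy1 g1 hv hv2
  obtain ⟨b, eb⟩ : ∃ b, b = x1 + v2 := ⟨_, rfl⟩
  have hbt : G.q b t = c := by rw [eb]; exact slot_add ht ht2
  have hby : G.q b y' = c := by rw [eb]; exact slot_add hy1 (Pr.mem_ux.1 hv2).1
  have sb : LS G c b := ⟨_, hbt⟩
  have gb := glob_good h0 g0 sb
  have e1 : ∀ w ∈ T G c x0 b A2, G.q v w = G.z := by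
    rw [← (glob_f h0 g0 ht hbt).2]
    exact perp1 (Pr.mem_ux.2 ⟨ht1, (Pr.mem_ux.1 hv).2⟩)
  have bx : b + x = v1 := by
    rw [eb, ex, add_add_add_comm, add_self', zero_add, add_comm v1 v2, add_add_cancel]
  have e2 : ∀ w ∈ T G c x0 b A2, G.q (b + x) w = G.z := by
    rw [bx, ← (glob_f h0 g0 hy1 hby).2]
    exact perp1 hv1
  have e3 := T_keep2 sb h gb e2
  have e4 := (cons h0 sb h g0).2
  rw [e3] at e4
  rw [← e4]
  exact e1

/-- the second pieces in `X` are orthogonal to the first pieces in `Y` -/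
theorem glob_perp21 {x x1 : X} {y : Y} (h : LS G c x) (h1 : G.q x1 y = c) {v : X}
    (hv : v ∈ G.ux y (T G c x0 x1 A1)) : ∀ w ∈ T G c x0 x A1, G.q v w = G.z := by
  have s1 : LS G c x1 := ⟨y, h1⟩
  have g1 := glob_good h0 g0 s1
  obtain ⟨y', v1, v2, hy1, hy2, hv1, hv2, ex⟩ := pieces s1 h g1
  obtain ⟨t, ht, ht1, ht2⟩ := common hy1 h1 g1 hv1 hv
  obtain ⟨b, eb⟩ : ∃ b, b = x1 + v1 := ⟨_, rfl⟩
  have hbt : G.q b t = c := by rw [eb]; exact slot_add ht ht1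
  have hby : G.q b y' = c := by rw [eb]; exact slot_add hy1 (Pr.mem_ux.1 hv1).1
  have sb : LS G c b := ⟨_, hbt⟩
  have gb := glob_good h0 g0 sb
  have e1 : ∀ w ∈ T G c x0 b A1, G.q v w = G.z := by
    rw [← (glob_f h0 g0 ht hbt).1]
    exact perp1 (Pr.mem_ux.2 ⟨ht2, (Pr.mem_ux.1 hv).2⟩)
  have bx : b + x = v2 := by
    rw [eb, ex, add_add_add_comm, add_self', zero_add, add_add_cancel]
  have e2 : ∀ w ∈ T G c x0 b A1, G.q (b + x) w = G.z := by
    rw [bx, ← (glob_f h0 g0 hy1 hby).1]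
    exact perp1 hv2
  have e3 := T_keep1 sb h gb e2
  have e4 := (cons h0 sb h g0).1
  rw [e3] at e4
  rw [← e4]
  exact e1

end glob

/-- sum of the first pieces in `X` -/
noncomputable def X1 (G : Pr X Y Q) (c : Q) (x0 : X) (A2 : Submodule (ZMod 2) Y) :
    Submodule (ZMod 2) X :=
  ⨆ (x : X) (y : Y) (_ : G.q x y = c), G.ux y (T G c x0 x A2)

/-- sum of the first pieces in `Y` -/
noncomputable def Y1 (G : Pr X Y Q) (c : Q) (x0 : X) (A1 : Submodule (ZMod 2) Y) :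
    Submodule (ZMod 2) Y :=
  ⨆ (x : X) (_ : LS G c x), T G c x0 x A1

theorem le_X1 {x0 x : X} {y : Y} {A2 : Submodule (ZMod 2) Y} (h : G.q x y = c) :
    G.ux y (T G c x0 x A2) ≤ X1 G c x0 A2 := by
  unfold X1
  exact le_iSup_of_le x (le_iSup_of_le y (le_iSup_of_le h le_rfl))

theorem le_Y1 {x0 x : X} {A1 : Submodule (ZMod 2) Y} (h : LS G c x) :
    T G c x0 x A1 ≤ Y1 G c x0 A1 := by
  unfold Y1
  exact le_iSup_of_le x (le_iSup_of_le h le_rfl)

section glob2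

variable {x0 : X} {A1 A2 : Submodule (ZMod 2) Y} (h0 : LS G c x0) (g0 : A.gx x0 A1 A2)

include h0 g0

theorem X1_perp {u : X} (hu : u ∈ X1 G c x0 A2) {w : Y} (hw : w ∈ Y1 G c x0 A2) :
    G.q u w = G.z := by
  have e1 : X1 G c x0 A2 ≤ G.px (Y1 G c x0 A2 : Set Y) := by
    unfold X1
    refine iSup_le fun x1 => iSup_le fun y => iSup_le fun h1 => ?_
    intro v hv
    have e2 : Y1 G c x0 A2 ≤ G.py {v} := by
      unfold Y1
      refine iSup_le fun x => iSup_le fun h => ?_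
      intro w hw
      rw [Pr.mem_py]
      rintro v' rfl
      exact glob_perp12 h0 g0 h h1 hv w hw
    rw [Pr.mem_px]
    intro w hw
    exact (Pr.mem_py.1 (e2 hw)) v rfl
  exact Pr.mem_px.1 (e1 hu) w hw

theorem X2_perp {u : X} (hu : u ∈ X1 G c x0 A1) {w : Y} (hw : w ∈ Y1 G c x0 A1) :
    G.q u w = G.z := by
  have e1 : X1 G c x0 A1 ≤ G.px (Y1 G c x0 A1 : Set Y) := by
    unfold X1
    refine iSup_le fun x1 => iSup_le fun y => iSup_le fun h1 => ?_
    intro v hv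
    have e2 : Y1 G c x0 A1 ≤ G.py {v} := by
      unfold Y1
      refine iSup_le fun x => iSup_le fun h => ?_
      intro w hw
      rw [Pr.mem_py]
      rintro v' rfl
      exact glob_perp21 h0 g0 h h1 hv w hw
    rw [Pr.mem_px]
    intro w hw
    exact (Pr.mem_py.1 (e2 hw)) v rfl
  exact Pr.mem_px.1 (e1 hu) w hw

variable (hy : ∀ y, RS G c y → y ∈ Y1 G c x0 A1 ⊔ Y1 G c x0 A2)

include hy

theorem inter {u : X} (hu : u ∈ X1 G c x0 A2) (hu' : u ∈ X1 G c x0 A1) {y : Y}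
    (h : RS G c y) : G.q u y = G.z := by
  obtain ⟨y1, h1, y2, h2, rfl⟩ := Submodule.mem_sup.1 (hy y h)
  rw [Pr.addr (X2_perp h0 g0 hu' h1), X1_perp h0 g0 hu h2]

theorem val_y {x x' : X} {y : Y} (h : G.q x y = c) (h' : G.q x' y = c) {x1 x2 x1' x2' : X}
    (m1 : x1 ∈ X1 G c x0 A2) (m2 : x2 ∈ X1 G c x0 A1) (e : x1 + x2 = x)
    (m1' : x1' ∈ X1 G c x0 A2) (m2' : x2' ∈ X1 G c x0 A1) (e' : x1' + x2' = x') :
    G.q x1 y = G.q x1' y ∧ G.q x2 y = G.q x2' y := by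
  have g := glob_good h0 g0 ⟨y, h⟩
  obtain ⟨v1, hv1, v2, hv2, hv⟩ := split_x h g (sub_z h h')
  have mv1 := le_X1 h hv1
  have mv2 := le_X1 h hv2
  have eq : x1 + x1' + v1 = x2 + x2' + v2 := by
    have h1 : (x1 + x1' + v1) + (x2 + x2' + v2) = 0 := by
      have : (x1 + x1' + v1) + (x2 + x2' + v2) = (x1 + x2) + (x1' + x2') + (v1 + v2) := by abel
      rw [this, e, e', hv, add_self']
    have h2 := congrArg (· + (x2 + x2' + v2)) h1
    simp only [zero_add] at h2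
    rw [add_assoc, add_self', add_zero] at h2
    exact h2
  have mm : x1 + x1' + v1 ∈ X1 G c x0 A2 := add_mem (add_mem m1 m1') mv1
  have mm' : x1 + x1' + v1 ∈ X1 G c x0 A1 := by
    rw [eq]; exact add_mem (add_mem m2 m2') mv2
  have hz := inter h0 g0 hy mm mm' ⟨x, h⟩
  constructor
  · rw [G.hx]
    rw [Pr.addl' (Pr.mem_ux.1 hv1).1] at hz
    exact hz
  · rw [G.hx]
    rw [eq, Pr.addl' (Pr.mem_ux.1 hv2).1] at hz
    exact hz

omit hy in
theorem val_x {x : X} {y y' : Y} (h : G.q x y = c) (h' : G.q x y' = c) {x1 x2 : X}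
    (m1 : x1 ∈ X1 G c x0 A2) (m2 : x2 ∈ X1 G c x0 A1) (e : x1 + x2 = x) :
    G.q x1 y = G.q x1 y' ∧ G.q x2 y = G.q x2 y' := by
  have hs : LS G c x := ⟨y, h⟩
  have g := glob_good h0 g0 hs
  obtain ⟨w1, hw1, w2, hw2, hw⟩ := split_y g (sub_z' h h')
  have mw1 := le_Y1 hs hw1
  have mw2 := le_Y1 hs hw2
  have z1 : G.q x1 w1 = G.z := by
    have := w1_le g hw1
    rw [← e, Pr.addl' (X2_perp h0 g0 m2 mw1)] at this
    exact this
  have z2 : G.q x2 w2 = G.z := by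
    have := w2_le g hw2
    rw [← e, Pr.addl (X1_perp h0 g0 m1 mw2)] at this
    exact this
  constructor
  · rw [G.hy, ← hw, Pr.addr z1, X1_perp h0 g0 m1 mw2]
  · rw [G.hy, ← hw, Pr.addr' z2, X2_perp h0 g0 m2 mw1]

theorem val {x x' : X} {y y' : Y} (h : G.q x y = c) (h' : G.q x' y' = c) {x1 x2 x1' x2' : X}
    (m1 : x1 ∈ X1 G c x0 A2) (m2 : x2 ∈ X1 G c x0 A1) (e : x1 + x2 = x)
    (m1' : x1' ∈ X1 G c x0 A2) (m2' : x2' ∈ X1 G c x0 A1) (e' : x1' + x2' = x') :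
    G.q x1 y = G.q x1' y' ∧ G.q x2 y = G.q x2' y' := by
  obtain ⟨t, ht, ht'⟩ := A.lx _ _ _ _ h h'
  have a := val_x h0 g0 h ht m1 m2 e
  have b := val_y h0 g0 hy ht ht' m1 m2 e m1' m2' e'
  have d := val_x h0 g0 ht' h' m1' m2' e'
  exact ⟨a.1.trans (b.1.trans d.1), a.2.trans (b.2.trans d.2)⟩

/-- part C: the symbol is a sum of two symbols, and its slots are properly contained in those of
the first one -/
theorem fin (hx : ∀ x, LS G c x → x ∈ X1 G c x0 A2 ⊔ X1 G c x0 A1)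
    (red : ∀ x, LS G c x → ∀ u, (∀ y, G.q x y = c → G.q u y = G.z) → u = 0)
    (n1 : ∀ y U1 U2, A.gy y U1 U2 → ∃ u ∈ U1, u ≠ 0)
    (n2 : ∀ y U1 U2, A.gy y U1 U2 → ∃ u ∈ U2, u ≠ 0) :
    ∃ c1, c1 ≠ G.z ∧ (∀ y, RS G c y → ∃ x, LS G c x ∧ ∃ x1, G.q x1 y = c1) ∧
      ∃ x1, LS G c1 x1 ∧ ¬ LS G c x1 := by
  obtain ⟨y0, hy0⟩ := id h0
  obtain ⟨a1, ha1, a2, ha2, ea⟩ := Submodule.mem_sup.1 (hx x0 h0)
  have gg := glob_good h0 g0 h0
  have gy := A.tx hy0 gg
  -- both parts of a slot are nonzero for the symbols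
  have ne1 : G.q a1 y0 ≠ G.z := by
    intro hz
    have key : ∀ x x1 x2, LS G c x → x1 ∈ X1 G c x0 A2 → x2 ∈ X1 G c x0 A1 → x1 + x2 = x →
        x1 = 0 := by
      intro x x1 x2 hs m1 m2 e
      refine red x hs x1 fun y hxy => ?_
      rw [← (val h0 g0 hy hy0 hxy ha1 ha2 ea m1 m2 e).1, hz]
    obtain ⟨u, hu, hu0⟩ := n1 _ _ _ gy
    have k1 := key x0 a1 a2 h0 ha1 ha2 ea
    have k2 := key (x0 + u) (a1 + u) a2 ⟨y0, slot_add hy0 (Pr.mem_ux.1 hu).1⟩
      (add_mem ha1 (le_X1 hy0 hu)) ha2 (by rw [← ea]; abel)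
    rw [k1, zero_add] at k2
    exact hu0 k2
  have ne2 : G.q a2 y0 ≠ G.z := by
    intro hz
    have key : ∀ x x1 x2, LS G c x → x1 ∈ X1 G c x0 A2 → x2 ∈ X1 G c x0 A1 → x1 + x2 = x →
        x2 = 0 := by
      intro x x1 x2 hs m1 m2 e
      refine red x hs x2 fun y hxy => ?_
      rw [← (val h0 g0 hy hy0 hxy ha1 ha2 ea m1 m2 e).2, hz]
    obtain ⟨u, hu, hu0⟩ := n2 _ _ _ gy
    have k1 := key x0 a1 a2 h0 ha1 ha2 ea
    have k2 := key (x0 + u) a1 (a2 + u) ⟨y0, slot_add hy0 (Pr.mem_ux.1 hu).1⟩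
      ha1 (add_mem ha2 (le_X1 hy0 hu)) (by rw [← ea]; abel)
    rw [k1, zero_add] at k2
    exact hu0 k2
  refine ⟨G.q a1 y0, ne1, ?_, a1, ⟨y0, rfl⟩, ?_⟩
  · rintro y ⟨x, hxy⟩
    obtain ⟨x1, m1, x2, m2, e⟩ := Submodule.mem_sup.1 (hx x ⟨y, hxy⟩)
    exact ⟨x, ⟨y, hxy⟩, x1, (val h0 g0 hy hy0 hxy ha1 ha2 ea m1 m2 e).1.symm⟩
  · rintro ⟨y, h1⟩
    have := (val h0 g0 hy hy0 h1 ha1 ha2 ea ha1 (zero_mem _) (add_zero a1)).2
    rw [G.zl] at this
    exact ne2 this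

end glob2

end Sys

end PGELC
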