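import Pool.Agent.PGE.Loc
import Pool.Agent.PGELC.Mono

/-!
Part C of the notes 2448, 2456 for two-sided P-geometries: local splittings which spread along
edges give a global splitting of the symbol.
-/

set_option autoImplicit false
set_option linter.unusedSectionVars false

namespace Pool.Agent.PGE

namespace TG

variable {X Y Q : Type} [AddCommGroup X] [Module (ZMod 2) X] [AddCommGroup Y]
  [Module (ZMod 2) Y]

/-- a strict splitting at an edge -/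
structure SpE (G : TG X Y Q) (x : X) (y : Y) (U1 U2 : Submodule (ZMod 2) X)
    (W1 W2 : Submodule (ZMod 2) Y) : Prop where
  e : G.E x y
  u1 : ∀ u ∈ U1, G.C u y
  u2 : ∀ u ∈ U2, G.C u y
  w1 : ∀ w ∈ W1, G.C x w
  w2 : ∀ w ∈ W2, G.C x w
  su : ∀ v, G.C v y → ∃ a ∈ U1, ∃ b ∈ U2, v = a + b
  sw : ∀ w, G.C x w → ∃ a ∈ W1, ∃ b ∈ W2, w = a + b
  o12 : ∀ u ∈ U1, ∀ w ∈ W2, G.C u w
  o21 : ∀ u ∈ U2, ∀ w ∈ W1, G.C u w
  st : ∀ u1 ∈ U1, ∀ w1 ∈ W1, ∀ u2 ∈ U2, ∀ w2 ∈ W2, G.q u1 w1 = G.q u2 w2 → G.C u1 w1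
  n1 : ∃ u ∈ U1, u ≠ 0
  n2 : ∃ u ∈ U2, u ≠ 0

/-- Claim S: a splitting at the edge `(x, y)` spreads to all edges at `y` -/
def CS (G : TG X Y Q) : Prop :=
  ∀ (x : X) (y : Y) (U1 U2 : Submodule (ZMod 2) X) (W1 W2 : Submodule (ZMod 2) Y),
    G.SpE x y U1 U2 W1 W2 → ∀ x', G.E x' y →
      G.SpE x' y U1 U2 (G.yx x' ⊓ G.yc U2) (G.yx x' ⊓ G.yc U1)

variable {G : TG X Y Q}

theorem SpE.swp (hG : G.Red) {x : X} {y : Y} {U1 U2 : Submodule (ZMod 2) X}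
    {W1 W2 : Submodule (ZMod 2) Y} (h : G.SpE x y U1 U2 W1 W2) :
    G.swap.SpE y x W1 W2 U1 U2 where
  e := h.e
  u1 := h.w1
  u2 := h.w2
  w1 := h.u1
  w2 := h.u2
  su := h.sw
  sw := h.su
  o12 := fun w hw u hu => h.o21 u hu w hw
  o21 := fun w hw u hu => h.o12 u hu w hw
  st := fun w1 hw1 u1 hu1 w2 hw2 u2 hu2 e => h.st u1 hu1 w1 hw1 u2 hu2 w2 hw2 e
  n1 := by
    obtain ⟨u, hu, hu0⟩ := h.n1
    obtain ⟨w, hw, hn⟩ := hG.perp_ne hu0 h.e (h.u1 u hu)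
    obtain ⟨a, ha, b, hb, rfl⟩ := h.sw w hw
    refine ⟨a, ha, ?_⟩
    rintro rfl
    exact hn ((C.zr u).ar (h.o12 u hu b hb))
  n2 := by
    obtain ⟨u, hu, hu0⟩ := h.n2
    obtain ⟨w, hw, hn⟩ := hG.perp_ne hu0 h.e (h.u2 u hu)
    obtain ⟨a, ha, b, hb, rfl⟩ := h.sw w hw
    refine ⟨b, hb, ?_⟩
    rintro rfl
    exact hn ((h.o21 u hu a ha).ar (C.zr u))

/-- the pairing of a geometry -/
def pr (G : TG X Y Q) : PGELC.Pr X Y Q := ⟨G.q, G.z, G.addL, G.addR⟩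

theorem ux_eq (y : Y) (W : Submodule (ZMod 2) Y) : G.pr.ux y W = G.xy y ⊓ G.xc W := by
  ext u
  rw [PGELC.Pr.mem_ux, Submodule.mem_inf]
  rfl

theorem wy_eq (x : X) (U : Submodule (ZMod 2) X) : G.pr.wy x U = G.yx x ⊓ G.yc U := by
  ext u
  rw [PGELC.Pr.mem_wy, Submodule.mem_inf]
  rfl

/-- the left pieces are determined by the right ones -/
theorem SpE.U1_eq (hG : G.Red) {x : X} {y : Y} {U1 U2 : Submodule (ZMod 2) X}
    {W1 W2 : Submodule (ZMod 2) Y} (h : G.SpE x y U1 U2 W1 W2) : G.xy y ⊓ G.xc W2 = U1 := by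
  ext u
  rw [Submodule.mem_inf]
  constructor
  · rintro ⟨h1, h2⟩
    obtain ⟨a, ha, b, hb, rfl⟩ := h.su u h1
    have hb0 : b = 0 := by
      by_contra hb0
      obtain ⟨w, hw, hn⟩ := hG.perp_ne hb0 h.e (h.u2 b hb)
      obtain ⟨c, hc, d, hd, rfl⟩ := h.sw w hw
      apply hn
      refine (h.o21 b hb c hc).ar ?_
      have h3 : G.C (a + (a + b)) d := (h.o12 a ha d hd).al (h2 d hd)
      exact h3.eq (aab a b) rfl
    rw [hb0, add_zero]
    exact ha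
  · intro hu
    exact ⟨h.u1 u hu, fun w hw => h.o12 u hu w hw⟩

theorem SpE.U2_eq (hG : G.Red) {x : X} {y : Y} {U1 U2 : Submodule (ZMod 2) X}
    {W1 W2 : Submodule (ZMod 2) Y} (h : G.SpE x y U1 U2 W1 W2) : G.xy y ⊓ G.xc W1 = U2 := by
  ext u
  rw [Submodule.mem_inf]
  constructor
  · rintro ⟨h1, h2⟩
    obtain ⟨a, ha, b, hb, rfl⟩ := h.su u h1
    have ha0 : a = 0 := by
      by_contra ha0
      obtain ⟨w, hw, hn⟩ := hG.perp_ne ha0 h.e (h.u1 a ha)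
      obtain ⟨c, hc, d, hd, rfl⟩ := h.sw w hw
      apply hn
      refine C.ar ?_ (h.o12 a ha d hd)
      have h3 : G.C (b + (a + b)) c := (h.o21 b hb c hc).al (h2 c hc)
      exact h3.eq (by rw [add_comm a b, aab]) rfl
    rw [ha0, zero_add]
    exact hb
  · intro hu
    exact ⟨h.u2 u hu, fun w hw => h.o21 u hu w hw⟩

theorem SpE.W1_eq (hG : G.Red) {x : X} {y : Y} {U1 U2 : Submodule (ZMod 2) X}
    {W1 W2 : Submodule (ZMod 2) Y} (h : G.SpE x y U1 U2 W1 W2) : G.yx x ⊓ G.yc U2 = W1 :=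
  (h.swp hG).U1_eq hG.swap

theorem SpE.W2_eq (hG : G.Red) {x : X} {y : Y} {U1 U2 : Submodule (ZMod 2) X}
    {W1 W2 : Submodule (ZMod 2) Y} (h : G.SpE x y U1 U2 W1 W2) : G.yx x ⊓ G.yc U1 = W2 :=
  (h.swp hG).U2_eq hG.swap

theorem SpE.swp' (hG : G.Red) {x : X} {y : Y} {U1 U2 : Submodule (ZMod 2) X}
    {W1 W2 : Submodule (ZMod 2) Y} (h : G.swap.SpE y x W1 W2 U1 U2) :
    G.SpE x y U1 U2 W1 W2 := by
  have := SpE.swp (G := G.swap) hG.swap h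
  exact this

/-- the second splitting with the same second piece has the same first piece -/
theorem SpE.le1 (hG : G.Red) {x : X} {y : Y} {U1 U2 U2' : Submodule (ZMod 2) X}
    {W1 W1' W2 : Submodule (ZMod 2) Y} (h : G.SpE x y U1 U2 W1 W2)
    (h' : G.SpE x y U1 U2' W1' W2) : W1' ≤ W1 := by
  intro w hw
  obtain ⟨a, ha, b, hb, rfl⟩ := h.sw w (h'.w1 w hw)
  have hb0 : b = 0 := by
    by_contra hb0
    obtain ⟨u, hu, hn⟩ := hG.swap.perp_ne hb0 (G.swap_E.2 h.e) (h.w2 b hb)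
    have hu' : G.C u y := hu
    obtain ⟨u1, hu1, u2, hu2, rfl⟩ := h.su u hu'
    -- split `u2` by the second splitting
    obtain ⟨v1, hv1, v2, hv2, ev⟩ := h'.su u2 (h.u2 u2 hu2)
    have h3 : G.C v2 (a + b) := h'.o21 v2 hv2 _ hw
    have h4 : v2 = v1 + u2 := by rw [ev, aab]
    have h5 : G.q v1 (a + b) = G.q u2 (a + b) := by
      rw [G.addL, ← h4]; exact h3
    rw [q_ar (h.o12 v1 hv1 b hb), add_comm a b, q_ar (h.o21 u2 hu2 a ha)] at h5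
    have h6 : G.C v1 a := h.st v1 hv1 a ha u2 hu2 b hb h5
    have h7 : G.C u2 b := h5.symm.trans h6
    exact hn ((h.o12 u1 hu1 b hb).al h7)
  rw [hb0, add_zero]
  exact ha

theorem SpE.symm' {x : X} {y : Y} {U1 U2 : Submodule (ZMod 2) X}
    {W1 W2 : Submodule (ZMod 2) Y} (h : G.SpE x y U1 U2 W1 W2) : G.SpE x y U2 U1 W2 W1 where
  e := h.e
  u1 := h.u2
  u2 := h.u1
  w1 := h.w2
  w2 := h.w1
  su := fun v hv => by
    obtain ⟨a, ha, b, hb, e⟩ := h.su v hv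
    exact ⟨b, hb, a, ha, by rw [e, add_comm]⟩
  sw := fun v hv => by
    obtain ⟨a, ha, b, hb, e⟩ := h.sw v hv
    exact ⟨b, hb, a, ha, by rw [e, add_comm]⟩
  o12 := h.o21
  o21 := h.o12
  st := fun u1 hu1 w1 hw1 u2 hu2 w2 hw2 e => by
    have := h.st u2 hu2 w2 hw2 u1 hu1 w1 hw1 e.symm
    exact e.trans this
  n1 := h.n2
  n2 := h.n1

/-- a splitting at a left slot -/
def gxP (G : TG X Y Q) (x : X) (W1 W2 : Submodule (ZMod 2) Y) : Prop :=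
  ∃ y U1 U2, G.SpE x y U1 U2 W1 W2

/-- a splitting at a right slot -/
def gyP (G : TG X Y Q) (y : Y) (U1 U2 : Submodule (ZMod 2) X) : Prop :=
  ∃ x W1 W2, G.SpE x y U1 U2 W1 W2

theorem gxP.at (hG : G.Red) (hs : G.swap.CS) {x : X} {W1 W2 : Submodule (ZMod 2) Y}
    (h : G.gxP x W1 W2) {y : Y} (hy : G.E x y) :
    G.SpE x y (G.pr.ux y W2) (G.pr.ux y W1) W1 W2 := by
  obtain ⟨y', U1, U2, h⟩ := h
  rw [ux_eq, ux_eq]
  have h1 := hs y' x W1 W2 U1 U2 (h.swp hG) y hy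
  exact h1.swp' hG

theorem gyP.at (hs : G.CS) {y : Y} {U1 U2 : Submodule (ZMod 2) X}
    (h : G.gyP y U1 U2) {x : X} (hx : G.E x y) :
    G.SpE x y U1 U2 (G.pr.wy x U2) (G.pr.wy x U1) := by
  obtain ⟨x', W1, W2, h⟩ := h
  rw [wy_eq, wy_eq]
  exact hs x' y U1 U2 W1 W2 h x hx

/-- the system of splittings -/
def sys (hG : G.Red) (h1 : G.CS) (h2 : G.swap.CS) : PGELC.Sys G.pr G.c where
  lx := fun x x' y y' h h' => by
    obtain ⟨t, ht, ht'⟩ := link (G := G) ⟨y, h⟩ ⟨y', h'⟩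
    exact ⟨t, ht, ht'⟩
  ly := fun x x' y y' h h' => by
    obtain ⟨t, ht, ht'⟩ := linkT (G := G) ⟨x, h⟩ ⟨x', h'⟩
    exact ⟨t, ht, ht'⟩
  gx := G.gxP
  gy := G.gyP
  tx := fun {x y W1 W2} h g => ⟨x, W1, W2, g.at hG h2 h⟩
  ty := fun {x y U1 U2} h g => ⟨y, U1, U2, g.at h1 h⟩
  ix1 := fun {x y W1 W2} h g => by
    have := (g.at hG h2 h).W1_eq hG
    rw [wy_eq]
    exact this
  ix2 := fun {x y W1 W2} h g => by
    have := (g.at hG h2 h).W2_eq hG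
    rw [wy_eq]
    exact this
  iy1 := fun {x y U1 U2} h g => by
    have := (g.at h1 h).U1_eq hG
    rw [ux_eq]
    exact this
  iy2 := fun {x y U1 U2} h g => by
    have := (g.at h1 h).U2_eq hG
    rw [ux_eq]
    exact this
  sx := fun {x W1 W2} g => by
    obtain ⟨y, U1, U2, h⟩ := g
    apply le_antisymm
    · refine sup_le ?_ ?_
      · intro w hw
        rw [PGELC.Pr.mem_py]
        rintro x' rfl
        exact h.w1 w hw
      · intro w hw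
        rw [PGELC.Pr.mem_py]
        rintro x' rfl
        exact h.w2 w hw
    · intro w hw
      obtain ⟨a, ha, b, hb, e⟩ := h.sw w (PGELC.Pr.mem_py.1 hw x rfl)
      rw [e]
      exact add_mem (Submodule.mem_sup_left ha) (Submodule.mem_sup_right hb)
  sy := fun {y U1 U2} g => by
    obtain ⟨x, W1, W2, h⟩ := g
    apply le_antisymm
    · refine sup_le ?_ ?_
      · intro w hw
        rw [PGELC.Pr.mem_px]
        rintro x' rfl
        exact h.u1 w hw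
      · intro w hw
        rw [PGELC.Pr.mem_px]
        rintro x' rfl
        exact h.u2 w hw
    · intro w hw
      obtain ⟨a, ha, b, hb, e⟩ := h.su w (PGELC.Pr.mem_px.1 hw y rfl)
      rw [e]
      exact add_mem (Submodule.mem_sup_left ha) (Submodule.mem_sup_right hb)
  str := fun {x y W1 W2} h g u1 hu1 u2 hu2 w1 hw1 w2 hw2 e =>
    (g.at hG h2 h).st u1 hu1 w1 hw1 u2 hu2 w2 hw2 e
  un1 := fun {x W1 W1' W2} g g' => by
    obtain ⟨y, U1, U2, h⟩ := id g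
    have a := g.at hG h2 h.e
    have b := g'.at hG h2 h.e
    exact le_antisymm (b.le1 hG a) (a.le1 hG b)
  un2 := fun {x W1 W2 W2'} g g' => by
    obtain ⟨y, U1, U2, h⟩ := id g
    have a := (g.at hG h2 h.e).symm'
    have b := (g'.at hG h2 h.e).symm'
    exact le_antisymm (b.le1 hG a) (a.le1 hG b)

/-- **part C**: in a reduced geometry where splittings spread, one splitting gives a global
splitting of the pieces -/
theorem SpE.glob (hG : G.Red) (h1 : G.CS) (h2 : G.swap.CS) {x : X} {y : Y}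
    {U1 U2 : Submodule (ZMod 2) X} {W1 W2 : Submodule (ZMod 2) Y}
    (h : G.SpE x y U1 U2 W1 W2)
    (hX : ∀ x, G.S x → x ∈ ⨆ (y : Y) (_ : G.T y), G.xy y)
    (hY : ∀ y, G.T y → y ∈ ⨆ (x : X) (_ : G.S x), G.yx x) :
    ∃ c1, c1 ≠ G.z ∧ (∀ y, G.T y → ∃ x, G.q x y = c1) ∧
      ∃ x, (∃ y, G.q x y = c1) ∧ ¬ G.S x := by
  have hs : PGELC.Sys.LS G.pr G.c x := ⟨y, h.e⟩
  have g : (sys hG h1 h2).gx x W1 W2 := ⟨y, U1, U2, h⟩
  have leY : (⨆ (x : X) (_ : G.S x), G.yx x) ≤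
      PGELC.Sys.Y1 G.pr G.c x W1 ⊔ PGELC.Sys.Y1 G.pr G.c x W2 := by
    refine iSup_le fun x' => iSup_le fun hx0 => ?_
    intro w hw
    have hx' : PGELC.Sys.LS G.pr G.c x' := hx0
    have g' := PGELC.Sys.glob_good hs g hx'
    obtain ⟨w1, hw1, w2, hw2, e⟩ := PGELC.Sys.split_y g' hw
    rw [← e]
    exact add_mem (Submodule.mem_sup_left (PGELC.Sys.le_Y1 hx' hw1))
      (Submodule.mem_sup_right (PGELC.Sys.le_Y1 hx' hw2))
  have leX : (⨆ (y : Y) (_ : G.T y), G.xy y) ≤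
      PGELC.Sys.X1 G.pr G.c x W2 ⊔ PGELC.Sys.X1 G.pr G.c x W1 := by
    refine iSup_le fun y' => iSup_le fun hy' => ?_
    intro v hv
    obtain ⟨x', hxy0⟩ := hy'
    have hxy : G.pr.q x' y' = G.c := hxy0
    have g' := PGELC.Sys.glob_good hs g ⟨y', hxy⟩
    obtain ⟨v1, hv1, v2, hv2, e⟩ := PGELC.Sys.split_x hxy g' hv
    rw [← e]
    exact add_mem (Submodule.mem_sup_left (PGELC.Sys.le_X1 hxy hv1))
      (Submodule.mem_sup_right (PGELC.Sys.le_X1 hxy hv2))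
  obtain ⟨c1, a, b, d⟩ := PGELC.Sys.fin (A := sys hG h1 h2) hs g (fun y hy => leY (hY y hy))
    (fun x hx => leX (hX x hx)) (by
      rintro x ⟨y, hxy⟩ u hu
      exact hG.comm ⟨y, hxy⟩ hu) (by
      rintro y U1 U2 ⟨x, W1, W2, h⟩
      exact h.n1) (by
      rintro y U1 U2 ⟨x, W1, W2, h⟩
      exact h.n2)
  refine ⟨c1, a, ?_, ?_⟩
  · intro y hy
    obtain ⟨x, _, x1, h⟩ := b y hy
    exact ⟨x1, h⟩
  · obtain ⟨x1, h, h'⟩ := d
    exact ⟨x1, h, h'⟩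

end TG

end Pool.Agent.PGE
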