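import Pool.Agent.PGELC.Rdx

/-!
Reduced geometries in which every edge is one dual pair (case (B) of the notes 2448, 2456).
-/

set_option autoImplicit false
set_option linter.unusedSectionVars false
set_option linter.unusedSimpArgs false
set_option linter.unnecessarySeqFocus false

namespace Pool.Agent.PGE

namespace TG

variable {X Y Q : Type} [AddCommGroup X] [Module (ZMod 2) X] [AddCommGroup Y]
  [Module (ZMod 2) Y]

/-- every edge is one dual pair: the local pairing takes only two values -/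
def DPG (G : TG X Y Q) : Prop :=
  ∀ x y, G.E x y → ∃ e, ∀ u w, G.C u y → G.C x w → G.q u w = G.z ∨ G.q u w = e

variable {G : TG X Y Q}

theorem DPG.swap (h : G.DPG) : G.swap.DPG := by
  intro y x hyx
  obtain ⟨e, he⟩ := h x y hyx
  exact ⟨e, fun w u hw hu => he u w hu hw⟩

/-- index two -/
theorem DPG.idx (h : G.DPG) {x : X} {y : Y} (hxy : G.E x y) {u : X} (hu : G.C u y) {w w' : Y}
    (hw : G.C x w) (hw' : G.C x w') (n : ¬ G.C u w) (n' : ¬ G.C u w') : G.C u (w + w') := by
  obtain ⟨e, he⟩ := h x y hxy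
  have h1 := (he u w hu hw).resolve_left n
  have h2 := (he u w' hu hw').resolve_left n'
  exact (G.addR u w w').1 (h1.trans h2.symm)

theorem DPG.idx' (h : G.DPG) {x : X} {y : Y} (hxy : G.E x y) {u u' : X} (hu : G.C u y)
    (hu' : G.C u' y) {w : Y} (hw : G.C x w) (n : ¬ G.C u w) (n' : ¬ G.C u' w) :
    G.C (u + u') w := by
  obtain ⟨e, he⟩ := h x y hxy
  have h1 := (he u w hu hw).resolve_left n
  have h2 := (he u' w hu' hw).resolve_left n'
  exact (G.addL u u' w).1 (h1.trans h2.symm)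

/-- `v` and `v'` are complementary at `x` -/
structure Cp (G : TG X Y Q) (x v v' : X) : Prop where
  n : v ≠ 0
  n' : v' ≠ 0
  s : G.S (x + v)
  s' : G.S (x + v')
  d : ¬ G.S (x + (v + v'))

theorem Cp.symm {x v v' : X} (h : G.Cp x v v') : G.Cp x v' v :=
  ⟨h.n', h.n, h.s', h.s, by rw [add_comm v' v]; exact h.d⟩

theorem Cp.disj {x v v' : X} (h : G.Cp x v v') {t : Y} (ht : G.E x t) (h1 : G.C v t)
    (h2 : G.C v' t) : False := h.d (ht.al (h1.al h2)).S

/-- the directions of complementary hyperplanes agree -/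
theorem DPG.dir (hB : G.DPG) {x v v' : X} (hx : G.S x) (h : G.Cp x v v') {w : Y}
    (hw : G.C x w) (hv : G.C v w) : G.C v' w := by
  obtain ⟨y, h1, h2⟩ := (S_iff hx).1 h.s
  obtain ⟨y', h1', h2'⟩ := (S_iff hx).1 h.s'
  by_contra hn
  have n1 : ¬ G.C v' y := fun h3 => h.disj h1 h2 h3
  have n2 : ¬ G.C v' (y + y') := fun h3 => n1 (by
    have := h3.ar h2'
    exact this.eq rfl (eo (by abel_nf <;> simp only [ch2, ch3, ch4, ch5, ch6, add_zero, zero_add])))
  have h4 := hB.idx h1' h2' (h1.C_r h1') hw n2 hn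
  have h5 : G.C v' (y + w) := (h4.ar h2').eq rfl
    (eo (by abel_nf <;> simp only [ch2, ch3, ch4, ch5, ch6, add_zero, zero_add]))
  exact h.disj (h1.ar hw) (h2.ar hv) h5

/-- complementary hyperplanes cover -/
theorem DPG.cover (hB : G.DPG) {x v v' : X} (h : G.Cp x v v') {t : Y} (ht : G.E x t) :
    G.C v t ∨ G.C v' t := by
  by_contra hcon
  push Not at hcon
  obtain ⟨n1, n2⟩ := hcon
  have hx : G.S x := ⟨t, ht⟩
  obtain ⟨y, h1, h2⟩ := (S_iff hx).1 h.s
  obtain ⟨y', h1', h2'⟩ := (S_iff hx).1 h.s'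
  have n3 : ¬ G.C v (t + y) := fun h3 => n1 ((h3.ar h2).eq rfl
    (eo (by abel_nf <;> simp only [ch2, ch3, ch4, ch5, ch6, add_zero, zero_add])))
  have n4 : ¬ G.C v (y' + y) := fun h3 => h.disj h1' ((h3.ar h2).eq rfl
    (eo (by abel_nf <;> simp only [ch2, ch3, ch4, ch5, ch6, add_zero, zero_add]))) h2'
  have h5 := hB.idx h1 h2 (ht.C_r h1) (h1'.C_r h1) n3 n4
  have h6 : G.C v (t + y') := h5.eq rfl
    (eo (by abel_nf <;> simp only [ch2, ch3, ch4, ch5, ch6, add_zero, zero_add]))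
  have h7 := hB.dir hx h (ht.C_r h1') h6
  exact n2 ((h7.ar h2').eq rfl
    (eo (by abel_nf <;> simp only [ch2, ch3, ch4, ch5, ch6, add_zero, zero_add])))

/-- a vector of `X_y` is determined by its perp -/
theorem DPG.inj (hG : G.Red) (hB : G.DPG) {x v v' : X} {y : Y} (hxy : G.E x y) (hv : G.C v y)
    (hv' : G.C v' y) (h : ∀ w, G.C x w → (G.C v w ↔ G.C v' w)) : v = v' := by
  apply eo
  apply hG.comm ⟨y, hxy⟩
  intro t ht
  have h1 : G.C (v + v') (y + t) := by
    by_cases h2 : G.C v (y + t)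
    · exact h2.al ((h _ (hxy.C_r ht)).1 h2)
    · exact hB.idx' hxy hv hv' (hxy.C_r ht) h2 (fun h3 => h2 ((h _ (hxy.C_r ht)).2 h3))
  exact ((hv.al hv').ar h1).eq rfl (aab y t)

/-- complements are unique -/
theorem DPG.uniq (hG : G.Red) (hB : G.DPG) {x v v' v'' : X} (hx : G.S x) (h : G.Cp x v v')
    (k : G.Cp x v v'') : v' = v'' := by
  obtain ⟨y', h1, h2⟩ := (S_iff hx).1 h.s'
  have n1 : ¬ G.C v y' := fun h3 => h.disj h1 h3 h2
  have h3 : G.C v'' y' := (hB.cover k h1).resolve_left n1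
  refine DPG.inj hG hB h1 h2 h3 (fun w hw => ⟨fun h4 => ?_, fun h4 => ?_⟩)
  · exact hB.dir hx k hw (hB.dir hx h.symm hw h4)
  · exact hB.dir hx h hw (hB.dir hx k.symm hw h4)

/-- complements exist -/
theorem DPG.ex (hG : G.Red) (hB : G.DPG) {x v : X} (hx : G.S x) (hv : G.S (x + v)) (n : v ≠ 0) :
    ∃ v', G.Cp x v v' := by
  obtain ⟨y, h1, h2⟩ := (S_iff hx).1 hv
  obtain ⟨w, hw, hn⟩ := hG.perp_ne n h1 h2
  have hy' : G.E x (y + w) := h1.ar hw
  have hne : x + v ≠ x := fun h => n (by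
    have : x + (x + v) = 0 := by rw [h]; exact aa x
    rwa [aab] at this)
  obtain ⟨u, hu0, hu1, hu2⟩ := hG.meet (W := G.dd x v) (x := x)
    (fun w' hw' => (mem_dd.1 hw').1) hv hne
    (fun w' hw' => (mem_dd.1 hw').1.al (mem_dd.1 hw').2) hy'
  refine ⟨u, n, hu0, hv, (hy'.al hu2).S, ?_⟩
  intro hS
  obtain ⟨t, h3, h4, h5⟩ := (S2_iff hx hv (hy'.al hu2).S).1 hS
  have h6 : G.C u (t + y) := hu1 _ (mem_dd.2 ⟨h3.C_r h1, h4.ar h2⟩)
  have h7 : G.C u y := (h5.ar h6).eq rfl (aab t y)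
  have h8 : G.C u w := (h7.ar hu2).eq rfl (aab y w)
  apply hu0
  apply hG.comm hx
  intro s hs
  have h9 : G.C u (y + s) := by
    by_cases h10 : G.C v (y + s)
    · exact hu1 _ (mem_dd.2 ⟨h1.C_r hs, h10⟩)
    · have h11 := hB.idx h1 h2 (h1.C_r hs) hw h10 hn
      have h12 := hu1 _ (mem_dd.2 ⟨(h1.C_r hs).ar hw, h11⟩)
      exact (h12.ar h8).eq rfl
        (eo (by abel_nf <;> simp only [ch2, ch3, ch4, ch5, ch6, add_zero, zero_add]))
  exact (h7.ar h9).eq rfl (aab y s)

/-- the sum of a complementary pair does not depend on the pair -/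
theorem DPG.const (hG : G.Red) (hB : G.DPG) {x v v' r r' : X} (hx : G.S x) (h : G.Cp x v v')
    (k : G.Cp x r r') : v + v' = r + r' := by
  by_cases e1 : r = v
  · subst e1
    rw [DPG.uniq hG hB hx h k]
  by_cases e2 : r = v'
  · subst e2
    rw [DPG.uniq hG hB hx h.symm k, add_comm]
  have h1 : G.S (x + (v + r)) := by
    by_contra hn
    exact e2 (DPG.uniq hG hB hx ⟨h.n, k.n, h.s, k.s, hn⟩ h)
  have u0 : v + r ≠ 0 := fun h0 => e1 (eo h0).symm
  have h2 : G.S (x + (r' + (v + r))) := by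
    by_contra hn
    have h3 : v + r = r := DPG.uniq hG hB hx ⟨k.n', u0, k.s', h1, hn⟩ k.symm
    apply h.n
    have : v = (v + r) + r :=
      (eo (by abel_nf <;> simp only [ch2, ch3, ch4, ch5, ch6, add_zero, zero_add]))
    rw [this, h3, aa]
  have h4 : r' + (v + r) ≠ 0 := by
    intro h0
    have h5 : r + r' = v := by
      rw [eo h0]
      exact (eo (by abel_nf <;> simp only [ch2, ch3, ch4, ch5, ch6, add_zero, zero_add]))
    exact k.d (by rw [h5]; exact h.s)
  have h6 : v + (r' + (v + r)) = r + r' :=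
    (eo (by abel_nf <;> simp only [ch2, ch3, ch4, ch5, ch6, add_zero, zero_add]))
  have h7 : v' = r' + (v + r) :=
    DPG.uniq hG hB hx h ⟨h.n, h4, h.s, h2, by rw [h6]; exact k.d⟩
  rw [h7, h6]

/-- the slots seen from `x`, together with one more vector, form a subspace -/
theorem DPG.sub (hG : G.Red) (hB : G.DPG) {x v v' : X} (hx : G.S x) (h : G.Cp x v v') :
    ∃ M : Submodule (ZMod 2) X, ∀ e, e ∈ M ↔ (G.S (x + e) ∨ e = v + v') := by
  have key : ∀ e1 e2, (G.S (x + e1) ∨ e1 = v + v') → (G.S (x + e2) ∨ e2 = v + v') →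
      (G.S (x + (e1 + e2)) ∨ e1 + e2 = v + v') := by
    have half : ∀ e1, G.S (x + e1) → G.S (x + (e1 + (v + v'))) ∨ e1 + (v + v') = v + v' := by
      intro e1 h1
      by_cases e0 : e1 = 0
      · right; rw [e0, zero_add]
      left
      obtain ⟨e2, k⟩ := DPG.ex hG hB hx h1 e0
      rw [DPG.const hG hB hx h k, aab]
      exact k.s'
    rintro e1 e2 (h1 | rfl) (h2 | rfl)
    · by_cases e0 : e1 = 0
      · left; rw [e0, zero_add]; exact h2
      by_cases e0' : e2 = 0
      · left; rw [e0', add_zero]; exact h1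
      by_cases hS : G.S (x + (e1 + e2))
      · exact Or.inl hS
      · exact Or.inr (DPG.const hG hB hx ⟨e0, e0', h1, h2, hS⟩ h)
    · exact half e1 h1
    · rw [add_comm (v + v') e2]; exact half e2 h2
    · left; rw [aa, add_zero]; exact hx
  refine ⟨{ carrier := {e | G.S (x + e) ∨ e = v + v'}
            add_mem' := fun {a b} ha hb => key a b ha hb
            zero_mem' := Or.inl (by rw [add_zero]; exact hx)
            smul_mem' := fun r a ha => ?_ }, fun e => Iff.rfl⟩
  have : r = 0 ∨ r = 1 := by revert r; decide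
  rcases this with rfl | rfl
  · rw [zero_smul]; exact Or.inl (by rw [add_zero]; exact hx)
  · rw [one_smul]; exact ha

/-- case (B): dual pairs give (ONE) -/
theorem DPG.one (hG : G.Red) (hB : G.DPG) (hne : ∃ x, G.S x)
    (hY : ∀ y, G.T y → y ∈ ⨆ (x : X) (_ : G.S x), G.yx x) : G.One := by
  obtain ⟨x, y, hxy⟩ := hne
  refine ⟨x, ⟨y, hxy⟩, ?_⟩
  by_cases hc : ∃ e, e ≠ 0 ∧ G.T (y + e)
  · obtain ⟨v, hv0, hv⟩ := hc
    obtain ⟨v', h⟩ := DPG.ex (G := G.swap) hG.swap hB.swap ⟨x, hxy⟩ hv hv0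
    obtain ⟨M, hM⟩ := DPG.sub (G := G.swap) hG.swap hB.swap ⟨x, hxy⟩ h
    have hT : ∀ t t', G.T t → G.T t' → t + t' ∈ M := by
      intro t t' ht ht'
      have h1 : y + t ∈ M := (hM _).2 (Or.inl (by rw [aab]; exact ht))
      have h2 : y + t' ∈ M := (hM _).2 (Or.inl (by rw [aab]; exact ht'))
      have h3 : t + t' = (y + t) + (y + t') :=
        (eo (by abel_nf <;> simp only [ch2, ch3, ch4, ch5, ch6, add_zero, zero_add]))
      rw [h3]; exact add_mem h1 h2
    have hyM : y ∈ M := by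
      have le : (⨆ (x : X) (_ : G.S x), G.yx x) ≤ M := by
        refine iSup_le fun x' => iSup_le fun hx' => ?_
        intro w hw
        obtain ⟨t, ht⟩ := hx'
        have := hT t (t + w) ht.T (ht.ar hw).T
        rwa [aab] at this
      exact le (hY y ⟨x, hxy⟩)
    have hidx : ∀ e1 ∈ M, ∀ e2 ∈ M, ¬ G.C x e1 → ¬ G.C x e2 → G.C x (e1 + e2) := by
      have half : ∀ e2, G.T (y + e2) → ¬ G.C x e2 → G.C x (v + v' + e2) := by
        intro e2 h2 n2
        have e0 : e2 ≠ 0 := by rintro rfl; exact n2 (C.zr x)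
        obtain ⟨e3, k⟩ := DPG.ex (G := G.swap) hG.swap hB.swap ⟨x, hxy⟩ h2 e0
        have h4 := DPG.const (G := G.swap) hG.swap hB.swap ⟨x, hxy⟩ h k
        have h5 : v + v' + e2 = e3 := by
          rw [h4]
          exact (eo (by abel_nf <;> simp only [ch2, ch3, ch4, ch5, ch6, add_zero, zero_add]))
        rw [h5]
        exact (DPG.cover (G := G.swap) hB.swap k hxy).resolve_left n2
      intro e1 he1 e2 he2 n1 n2
      rcases (hM e1).1 he1 with h1 | h1 <;> rcases (hM e2).1 he2 with h2 | h2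
      · by_cases hS : G.T (y + (e1 + e2))
        · obtain ⟨s, h3, h4, h5⟩ := (T2_iff ⟨x, hxy⟩ h1 h2).1 hS
          have m1 : ¬ G.C (s + x) e1 := fun h6 => n1 ((h4.al h6).eq (aab s x) rfl)
          have m2 : ¬ G.C (s + x) e2 := fun h6 => n2 ((h5.al h6).eq (aab s x) rfl)
          have h7 := hB.idx h3 (E.C_l h3 hxy) h4 h5 m1 m2
          exact ((h4.ar h5).al h7).eq (aab s x) rfl
        · exfalso
          have e0 : e1 ≠ 0 := by rintro rfl; exact n1 (C.zr x)
          have e0' : e2 ≠ 0 := by rintro rfl; exact n2 (C.zr x)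
          have k : G.swap.Cp y e1 e2 := ⟨e0, e0', h1, h2, hS⟩
          rcases DPG.cover (G := G.swap) hB.swap k hxy with h3 | h3
          · exact n1 h3
          · exact n2 h3
      · rw [h2, add_comm]; exact half e1 h1 n1
      · rw [h1]; exact half e2 h2 n2
      · rw [h1, h2, aa]; exact C.zr x
    intro t t' ht ht'
    by_cases h1 : G.C x (t + t')
    · exact Or.inl h1
    · right
      have h2 := hidx y hyM _ (hT t t' ht ht') (fun h => hxy.not_C h) h1
      have h3 := hxy.ar h2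
      rw [aab] at h3
      exact h3
  · push Not at hc
    intro t t' ht ht'
    left
    have h1 : t = y := by
      by_contra hn
      exact hc (y + t) (fun h0 => hn (eo h0).symm) (by rw [aab]; exact ht)
    have h2 : t' = y := by
      by_contra hn
      exact hc (y + t') (fun h0 => hn (eo h0).symm) (by rw [aab]; exact ht')
    rw [h1, h2, aa]
    exact C.zr x

end TG

end Pool.Agent.PGE
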