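import Pool.Agent.PGE.AN
import Pool.Agent.PGELC.SpE

/-!
Reduction of a two-sided P-geometry to a reduced one, and the consequences for an alternating
pairing (note 2456 of helper28).
-/

set_option autoImplicit false
set_option linter.unusedSectionVars false
set_option linter.unusedSimpArgs false
set_option linter.unnecessarySeqFocus false

namespace Pool.Agent.PGE

namespace TG

variable {X Y Q : Type} [AddCommGroup X] [Module (ZMod 2) X] [AddCommGroup Y]
  [Module (ZMod 2) Y]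

/-- the stabilizer of the right slots -/
def stT (G : TG X Y Q) : Submodule (ZMod 2) Y where
  carrier := {u | ∀ y, G.T y → G.T (y + u)}
  zero_mem' := fun y h => by rw [add_zero]; exact h
  add_mem' := fun {a b} ha hb y h => by rw [← add_assoc]; exact hb _ (ha _ h)
  smul_mem' := fun r u hu y h => by
    have : r = 0 ∨ r = 1 := by revert r; decide
    rcases this with rfl | rfl
    · rw [zero_smul, add_zero]; exact h
    · rw [one_smul]; exact hu y h

variable {G : TG X Y Q}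

theorem mem_stT {u : Y} : u ∈ G.stT ↔ ∀ y, G.T y → G.T (y + u) := Iff.rfl

/-- slots of the first residue -/
theorem up_stT_T {y : Y} : (G.up G.stT).T (Submodule.Quotient.mk y) ↔ G.T y := by
  rw [up_T]
  constructor
  · rintro ⟨x, h, -⟩
    exact ⟨x, h⟩
  · intro h
    obtain ⟨x, hx⟩ := G.pT G.stT y (fun u hu => hu y h)
    have h0 : G.E x y := by
      have := hx 0 (zero_mem _)
      rwa [add_zero] at this
    refine ⟨x, h0, fun w hw => ?_⟩
    have h1 : G.E x (y + w) := hx w hw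
    exact (h0.C_r h1).eq rfl (aab y w)

theorem up_stT_stab : ∀ u, (∀ y, (G.up G.stT).T y → (G.up G.stT).T (y + u)) → u = 0 := by
  intro u hu
  obtain ⟨u, rfl⟩ := Submodule.Quotient.mk_surjective _ u
  rw [Submodule.Quotient.mk_eq_zero, mem_stT]
  intro y hy
  have := hu (Submodule.Quotient.mk y) (up_stT_T.2 hy)
  rw [← Submodule.Quotient.mk_add, up_stT_T] at this
  exact this

/-- if the left slots have no stabilizer, the stabilizer of the right slots commutes with all
left slots -/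
theorem stT_comm (h : ∀ u, (∀ x, G.S x → G.S (x + u)) → u = 0) {x : X} (hx : G.S x) :
    x ∈ G.xc G.stT := by
  obtain ⟨y, hy⟩ := hx
  obtain ⟨x', hx'⟩ := G.pT (G.yx x ⊔ G.stT) y (by
    intro a ha
    obtain ⟨b, hb, c, hc, rfl⟩ := Submodule.mem_sup.1 ha
    rw [← add_assoc]
    exact hc _ (E.ar hy hb).T)
  have h1 : x + x' = 0 := by
    apply h
    apply stab_of_comm (x := x) ⟨y, hy⟩
    intro t ht
    have h2 : G.E x' (y + (y + t)) := hx' _ (Submodule.mem_sup_left (hy.C_r ht))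
    rw [aab] at h2
    exact ht.C_l h2
  rw [← eo h1] at hx'
  intro w hw
  have h3 : G.E x (y + w) := hx' w (Submodule.mem_sup_right hw)
  exact (E.C_r hy h3).eq rfl (aab y w)

theorem up_stT_red (h : ∀ u, (∀ x, G.S x → G.S (x + u)) → u = 0) :
    (G.up G.stT).Red := by
  refine ⟨?_, up_stT_stab⟩
  intro u hu
  apply Subtype.ext
  apply h
  intro x hx
  have := hu ⟨x, stT_comm h hx⟩ (up_S.2 hx)
  exact up_S.1 this

/-- the reduced geometry -/
def core (G : TG X Y Q) :
    TG (G.xc G.stT ⧸ (G.up G.stT).swap.stT) ((G.up G.stT).swap.xc (G.up G.stT).swap.stT) Q :=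
  ((G.up G.stT).swap.up (G.up G.stT).swap.stT).swap

theorem core_red : G.core.Red :=
  (up_stT_red (G := (G.up G.stT).swap) up_stT_stab).swap

/-- the class of a left element -/
def cx (G : TG X Y Q) (x : G.xc G.stT) : G.xc G.stT ⧸ (G.up G.stT).swap.stT :=
  Submodule.Quotient.mk x

theorem core_S {x : G.xc G.stT} : G.core.S (G.cx x) ↔ G.S x.1 := by
  have h1 : G.core.S (G.cx x) ↔ (G.up G.stT).swap.T x :=
    up_stT_T (G := (G.up G.stT).swap)
  rw [h1]
  exact up_S

theorem core_mem {y : Y} (h : G.T y) :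
    (Submodule.Quotient.mk y : Y ⧸ G.stT) ∈ (G.up G.stT).swap.xc (G.up G.stT).swap.stT :=
  stT_comm (G := (G.up G.stT).swap) up_stT_stab (up_stT_T.2 h)

/-- the class of a right slot -/
def cy (G : TG X Y Q) (y : Y) (h : G.T y) : (G.up G.stT).swap.xc (G.up G.stT).swap.stT :=
  ⟨Submodule.Quotient.mk y, core_mem h⟩

theorem core_T {y : Y} (h : G.T y) : G.core.T (G.cy y h) :=
  (up_S (G := (G.up G.stT).swap)).2 (up_stT_T.2 h)

theorem core_T' {t : (G.up G.stT).swap.xc (G.up G.stT).swap.stT} (h : G.core.T t) :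
    ∃ y, ∃ h : G.T y, t = G.cy y h := by
  have h1 : (G.up G.stT).swap.S t.1 := (up_S (G := (G.up G.stT).swap)).1 h
  obtain ⟨y, hy⟩ := Submodule.Quotient.mk_surjective _ t.1
  rw [← hy] at h1
  refine ⟨y, up_stT_T.1 h1, ?_⟩
  apply Subtype.ext
  exact hy.symm

theorem core_q (x : G.xc G.stT) (y : Y) (h : G.T y) :
    G.core.q (G.cx x) (G.cy y h) = G.q x.1 y := rfl

theorem core_q2 (x : G.xc G.stT) (y y' : Y) (h : G.T y) (h' : G.T y') :
    G.core.q (G.cx x) (G.cy y h + G.cy y' h') = G.q x.1 (y + y') := rfl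

/-- the conclusion (ONE) for a two-sided geometry -/
def One (G : TG X Y Q) : Prop :=
  ∃ x, G.S x ∧ ∀ t t', G.T t → G.T t' → G.q x (t + t') = G.z ∨ G.q x (t + t') = G.c

/-- the geometries `E_k` satisfy (ONE) -/
theorem EK.one {g : X} {g' : Y} (h : G.EK g g')
    (hY : ∀ y, G.T y → y ∈ ⨆ (x : X) (_ : G.S x), G.yx x) : G.One := by
  obtain ⟨y0, hy0⟩ := h.Sg
  have le : (⨆ (x : X) (_ : G.S x), G.yx x) ≤ G.yx g ⊔ Submodule.span (ZMod 2) {g' + y0} := by
    refine iSup_le fun x => iSup_le fun hx => ?_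
    rcases h.s x hx with rfl | hx'
    · exact le_sup_left
    intro w hw
    have hw' : G.C x w := hw
    have h1 : G.E x (g' + w) := hx'.ar hw'
    rcases h.t _ h1.T with h2 | h2
    · have h3 : w = 0 := by
        have : g' + (g' + w) = 0 := by rw [h2]; exact aa g'
        rwa [aab] at this
      rw [h3]; exact zero_mem _
    · have h3 : w = (y0 + (g' + w)) + (g' + y0) :=
        (eo (by abel_nf <;> simp only [ch2, ch3, ch4, ch5, ch6, add_zero, zero_add]))
      rw [h3]
      exact add_mem (Submodule.mem_sup_left (hy0.C_r h2))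
        (Submodule.mem_sup_right (mem_s1.2 (Or.inr rfl)))
  have hgg : G.C g g' := by
    obtain ⟨a, ha, b, hb, e⟩ := Submodule.mem_sup.1 (le (hY y0 hy0.T))
    have ha' : G.C g a := ha
    rcases mem_s1.1 hb with rfl | rfl
    · exfalso
      rw [add_zero] at e
      rw [e] at ha'
      exact hy0.not_C ha'
    · have h3 : a = g' := by
        have : a = (a + (g' + y0)) + (g' + y0) :=
          (eo (by abel_nf <;> simp only [ch2, ch3, ch4, ch5, ch6, add_zero, zero_add]))
        rw [this, e]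
        exact (eo (by abel_nf <;> simp only [ch2, ch3, ch4, ch5, ch6, add_zero, zero_add]))
      rwa [h3] at ha'
  refine ⟨g, h.Sg, ?_⟩
  intro t t' ht ht'
  rcases h.t t ht with rfl | h1
  · rcases h.t t' ht' with rfl | h2
    · left; rw [aa]; exact C.zr g
    · right; rw [add_comm, q_ar hgg]; exact h2
  · rcases h.t t' ht' with rfl | h2
    · right; rw [q_ar hgg]; exact h1
    · left; exact h1.C_r h2

section alt

variable {V : Type} [AddCommGroup V] [Module (ZMod 2) V] {G : TG V V Q}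

/-- the diagonal condition on the left -/
theorem core_hX (sym : ∀ x y, G.q x y = G.q y x) (alt : ∀ x, G.C x x) :
    ∀ x, G.core.S x → x ∈ ⨆ (y) (_ : G.core.T y), G.core.xy y := by
  intro x hx
  obtain ⟨x, rfl⟩ := Submodule.Quotient.mk_surjective _ x
  obtain ⟨y, hy⟩ := core_S.1 hx
  have hT : G.T x.1 := ⟨y, (sym _ _).trans hy⟩
  refine Submodule.mem_iSup_of_mem (G.cy x.1 hT) (Submodule.mem_iSup_of_mem (core_T hT) ?_)
  exact alt x.1

theorem core_hY (sym : ∀ x y, G.q x y = G.q y x) (alt : ∀ x, G.C x x) :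
    ∀ y, G.core.T y → y ∈ ⨆ (x) (_ : G.core.S x), G.core.yx x := by
  intro t ht
  obtain ⟨s0, hs0⟩ := id ht
  obtain ⟨x, rfl⟩ := Submodule.Quotient.mk_surjective _ s0
  have hx : G.core.S (G.cx x) := ⟨t, hs0⟩
  obtain ⟨y, hy⟩ := core_S.1 hx
  have hT : G.T x.1 := ⟨y, (sym _ _).trans hy⟩
  obtain ⟨s, h1, h2⟩ := linkT (G := G.core) ht (core_T hT)
  have e : t = G.cy x.1 hT + (G.cy x.1 hT + t) := (aab _ _).symm
  rw [e]
  refine add_mem ?_ ?_
  · exact Submodule.mem_iSup_of_mem (G.cx x) (Submodule.mem_iSup_of_mem hx (alt x.1))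
  · refine Submodule.mem_iSup_of_mem s (Submodule.mem_iSup_of_mem ⟨_, h1⟩ ?_)
    exact h2.C_r h1

/-- (ONE) for the reduced geometry gives (ONE) for the symbol -/
theorem one_of_core (h : G.core.One) :
    ∃ x, G.S x ∧ ∀ s u, G.S s → G.C s u → G.q x u = G.z ∨ G.q x u = G.c := by
  obtain ⟨x, hx, h⟩ := h
  obtain ⟨x, rfl⟩ := Submodule.Quotient.mk_surjective _ x
  refine ⟨x.1, core_S.1 hx, ?_⟩
  rintro s u ⟨y, hy⟩ hu
  have h1 : G.T y := ⟨s, hy⟩
  have h2 : G.T (y + u) := ⟨s, hy.ar hu⟩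
  have h3 := h _ _ (core_T h1) (core_T h2)
  have h4 : G.core.q (G.cx x) (G.cy y h1 + G.cy (y + u) h2) = G.q x.1 u := by
    rw [core_q2, aab]
  rw [← h4]
  exact h3

/-- the conclusion of 2456 in case (C) -/
theorem split_of_core (sym : ∀ x y, G.q x y = G.q y x) (alt : ∀ x, G.C x x)
    (h1 : G.core.CS) (h2 : G.core.swap.CS)
    (h : ∃ x y U1 U2 W1 W2, G.core.SpE x y U1 U2 W1 W2) :
    ∃ c1, c1 ≠ G.z ∧ (∀ x, G.S x → ∃ y, G.q x y = c1) ∧
      ∃ x, (∃ y, G.q x y = c1) ∧ ¬ G.S x := by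
  obtain ⟨x, y, U1, U2, W1, W2, h⟩ := h
  obtain ⟨c1, a, b, x1, ⟨y1, d⟩, e⟩ := h.glob core_red h1 h2 (core_hX sym alt) (core_hY sym alt)
  refine ⟨c1, a, ?_, ?_⟩
  · rintro s ⟨y, hy⟩
    have hT : G.T s := ⟨y, (sym _ _).trans hy⟩
    obtain ⟨x', hx'⟩ := b _ (core_T hT)
    obtain ⟨x', rfl⟩ := Submodule.Quotient.mk_surjective _ x'
    exact ⟨x'.1, (sym _ _).trans hx'⟩
  · obtain ⟨x1, rfl⟩ := Submodule.Quotient.mk_surjective _ x1
    obtain ⟨⟨y1⟩, hy1⟩ := y1
    exact ⟨x1.1, ⟨y1, d⟩, fun h => e (core_S.2 h)⟩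

end alt

end TG

end Pool.Agent.PGE
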